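import Mathlib
import Pool.Agent.helper24.OT.Defs

set_option autoImplicit false

/-!
# Sweeping machines

A machine which repeats left-to-right passes by a nondeterministic letter-to-letter transducer.
-/

namespace Pool.Agent.helper20.OT

open Pool.Agent.helper24.OT

/-- the decision at the right end of a sweep -/
inductive Verdict (P : Type) where
  | acc : Verdict P
  | rej : Verdict P
  | cont (p : P) : Verdict P

/-- A sweeping machine. -/
structure Sweeper (A : Type) where
  /-- states -/
  P : Type
  /-- cell contents -/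
  C : Type
  /-- finitely many states -/
  finP : Finite P
  /-- finitely many cell contents -/
  finC : Finite C
  /-- the cell of an input letter -/
  ini : A → C
  /-- initial state -/
  start : P
  /-- one step of the transducer; the Boolean is the guess -/
  st : P → C → Bool → P × C
  /-- the decision at the right end -/
  fin : P → Verdict P

/-- the states of the Turing machine of a sweeping machine -/
inductive St (P : Type) where
  | R (p : P) : St P
  | L (p : P) : St P
  | acc : St P

theorem St.finite {P : Type} [Finite P] : Finite (St P) := by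
  let f : St P → Option (P ⊕ P) := fun s => match s with
    | .R p => some (Sum.inl p)
    | .L p => some (Sum.inr p)
    | .acc => none
  refine Finite.of_injective f ?_
  rintro (p | p | _) (p' | p' | _) h <;> simp_all [f]

namespace Sweeper

variable {A : Type} (W : Sweeper A)

open Classical in
/-- `1` if the step offers a genuine choice -/
noncomputable def ncost (p : W.P) (c : W.C) : ℕ := if W.st p c false = W.st p c true then 0 else 1

/-- one sweep over a list of cells, with the number of genuine choices -/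
inductive Sw : W.P → List W.C → ℕ → W.P → List W.C → Prop
  | nil (p : W.P) : Sw p [] 0 p []
  | cons {p : W.P} {c : W.C} {l : List W.C} {n : ℕ} {p' : W.P} {l' : List W.C} (b : Bool)
      (h : Sw (W.st p c b).1 l n p' l') : Sw p (c :: l) (W.ncost p c + n) p' ((W.st p c b).2 :: l')

/-- acceptance, with the number of sweeps and the number of genuine choices -/
inductive SAcc : W.P → List W.C → ℕ → ℕ → Prop
  | last {p p' : W.P} {l l' : List W.C} {G : ℕ} (h : W.Sw p l G p' l')
      (hf : W.fin p' = Verdict.acc) : SAcc p l 1 G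
  | more {p p' p'' : W.P} {l l' : List W.C} {k G G' : ℕ} (h : W.Sw p l G p' l')
      (hf : W.fin p' = Verdict.cont p'') (h' : SAcc p'' l' k G') : SAcc p l (k + 1) (G + G')

/-- the transition relation of the Turing machine -/
def delta : St W.P → Option W.C → Set (St W.P × Option W.C × SignType)
  | .R p, some c => {r | ∃ b, r = (St.R (W.st p c b).1, some (W.st p c b).2, 1)}
  | .R p, none => match W.fin p with
    | .acc => {(St.acc, none, 0)}
    | .rej => ∅
    | .cont p' => {(St.L p', none, -1)}
  | .L p, some c => {(St.L p, some c, -1)}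
  | .L p, none => {(St.R p, none, 1)}
  | .acc, _ => ∅

/-- the Turing machine -/
@[reducible] def toNTM : NTM A where
  Q := St W.P
  Γ := Option W.C
  finQ := by
    have := W.finP
    exact St.finite
  finΓ := by
    have := W.finC
    infer_instance
  blank := none
  inp := fun a => some (W.ini a)
  start := St.R W.start
  acc := {St.acc}
  δ := W.delta

/-- the tape with contents `l` -/
def tp (l : List W.C) : ℤ → Option W.C := fun i => if 0 ≤ i then l[i.toNat]? else none

theorem tp_neg (l : List W.C) : W.tp l (-1) = none := by simp [tp]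

theorem tp_end (l : List W.C) : W.tp l (l.length : ℤ) = none := by simp [tp]

theorem tp_mid (pre suf : List W.C) (c : W.C) :
    W.tp (pre ++ c :: suf) (pre.length : ℤ) = some c := by
  simp [tp]

theorem tp_update (pre suf : List W.C) (c c' : W.C) :
    Function.update (W.tp (pre ++ c :: suf)) (pre.length : ℤ) (some c') =
      W.tp (pre ++ c' :: suf) := by
  funext i
  by_cases h : i = (pre.length : ℤ)
  · subst h
    rw [Function.update_self, tp_mid]
  · rw [Function.update_of_ne h]
    unfold tp
    by_cases h0 : 0 ≤ i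
    · simp only [h0, if_true]
      have hne : i.toNat ≠ pre.length := by omega
      rcases lt_or_gt_of_ne hne with hlt | hgt
      · rw [List.getElem?_append_left hlt, List.getElem?_append_left hlt]
      · rw [List.getElem?_append_right hgt.le, List.getElem?_append_right hgt.le]
        obtain ⟨k, hk⟩ : ∃ k, i.toNat - pre.length = k + 1 := ⟨i.toNat - pre.length - 1, by omega⟩
        rw [hk]
        simp
    · simp [h0]

theorem update_self (l : List W.C) (i : ℤ) : Function.update (W.tp l) i (W.tp l i) = W.tp l :=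
  Function.update_eq_self _ _

/-- a configuration -/
def cfg (q : St W.P) (i : ℤ) (l : List W.C) : Cfg W.toNTM := ⟨q, i, W.tp l⟩

theorem init_eq (w : List A) : W.toNTM.init w = W.cfg (.R W.start) 0 (w.map W.ini) := by
  unfold NTM.init cfg
  congr 1
  funext i
  unfold tp
  by_cases h : 0 ≤ i
  · simp only [h, if_true, List.getElem?_map]
    cases w[i.toNat]? <;> rfl
  · simp only [h, if_false]

theorem moves_acc (i : ℤ) (l : List W.C) : W.toNTM.moves (W.cfg .acc i l) = ∅ := by
  unfold NTM.moves cfg
  simp only
  cases W.tp l i <;> rfl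

theorem moves_R_some (p : W.P) (pre suf : List W.C) (c : W.C) :
    W.toNTM.moves (W.cfg (.R p) pre.length (pre ++ c :: suf)) =
      {r | ∃ b, r = (St.R (W.st p c b).1, some (W.st p c b).2, 1)} := by
  unfold NTM.moves cfg
  simp only
  rw [tp_mid]
  rfl

theorem cost_R_some (p : W.P) (pre suf : List W.C) (c : W.C) :
    W.toNTM.cost (W.cfg (.R p) pre.length (pre ++ c :: suf)) = W.ncost p c := by
  unfold NTM.cost ncost
  rw [moves_R_some]
  by_cases h : W.st p c false = W.st p c true
  · rw [if_pos h, if_neg]
    rintro ⟨r, ⟨b, rfl⟩, r', ⟨b', rfl⟩, hne⟩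
    apply hne
    cases b <;> cases b' <;> simp [h]
  · rw [if_neg h, if_pos]
    refine ⟨_, ⟨false, rfl⟩, _, ⟨true, rfl⟩, ?_⟩
    intro h'
    apply h
    simp only [Prod.mk.injEq, St.R.injEq, Option.some.injEq, and_true] at h'
    exact Prod.ext h'.1 h'.2

theorem cost_sub {c : Cfg W.toNTM} {a : St W.P × Option W.C × SignType}
    (h : W.toNTM.moves c ⊆ {a}) : W.toNTM.cost c = 0 := by
  unfold NTM.cost
  rw [if_neg]
  rintro ⟨r, hr, r', hr', hne⟩
  exact hne ((h hr).trans (h hr').symm)

theorem moves_R_end (p : W.P) (l : List W.C) :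
    W.toNTM.moves (W.cfg (.R p) l.length l) = W.delta (.R p) none := by
  unfold NTM.moves cfg
  simp only
  rw [tp_end]

theorem moves_L (p : W.P) (i : ℤ) (l : List W.C) (h0 : 0 ≤ i) (h1 : i < l.length) :
    W.toNTM.moves (W.cfg (.L p) i l) = {(St.L p, W.tp l i, -1)} := by
  unfold NTM.moves cfg
  simp only
  obtain ⟨c, hc⟩ : ∃ c, W.tp l i = some c := by
    unfold tp
    rw [if_pos h0]
    have : i.toNat < l.length := by omega
    exact ⟨l[i.toNat], List.getElem?_eq_getElem this⟩
  rw [hc]
  rfl

theorem moves_L_end (p : W.P) (l : List W.C) :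
    W.toNTM.moves (W.cfg (.L p) (-1) l) = {(St.R p, none, 1)} := by
  unfold NTM.moves cfg
  simp only
  rw [tp_neg]
  simp only [delta]

theorem next_R_some (p p1 : W.P) (pre suf : List W.C) (c c1 : W.C) :
    W.toNTM.next (W.cfg (.R p) pre.length (pre ++ c :: suf)) (St.R p1, some c1, 1) =
      W.cfg (.R p1) (pre ++ [c1]).length ((pre ++ [c1]) ++ suf) := by
  unfold NTM.next cfg
  simp only
  rw [tp_update]
  simp

theorem next_L (p : W.P) (i : ℤ) (l : List W.C) :
    W.toNTM.next (W.cfg (.L p) i l) (St.L p, W.tp l i, -1) = W.cfg (.L p) (i - 1) l := by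
  unfold NTM.next cfg
  simp only [update_self]
  rfl

theorem next_L_end (p : W.P) (l : List W.C) :
    W.toNTM.next (W.cfg (.L p) (-1) l) (St.R p, none, 1) = W.cfg (.R p) 0 l := by
  unfold NTM.next cfg
  have h := W.update_self l (-1)
  rw [tp_neg] at h
  simp only [h]
  rfl

theorem next_R_end (p : W.P) (q : St W.P) (s : SignType) (l : List W.C) :
    W.toNTM.next (W.cfg (.R p) l.length l) (q, none, s) = W.cfg q (l.length + (s : ℤ)) l := by
  unfold NTM.next cfg
  have h := W.update_self l l.length
  rw [tp_end] at h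
  simp only [h]

/-! ### From computations to sweeps -/

theorem right_of_comp (suf : List W.C) : ∀ (pre : List W.C) (p : W.P) (T G : ℕ)
    (c' : Cfg W.toNTM), W.toNTM.Comp (W.cfg (.R p) pre.length (pre ++ suf)) T G c' →
    c'.q = St.acc → ∃ (p' : W.P) (suf' : List W.C) (G1 T2 G2 : ℕ), W.Sw p suf G1 p' suf' ∧
      W.toNTM.Comp (W.cfg (.R p') (pre ++ suf').length (pre ++ suf')) T2 G2 c' ∧
      G = G1 + G2 ∧ T2 ≤ T := by
  induction suf with
  | nil =>
    intro pre p T G c' h _
    refine ⟨p, [], 0, T, G, Sw.nil p, ?_, by ring, le_rfl⟩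
    simpa using h
  | cons c suf ih =>
    intro pre p T G c' h hq
    rcases h with _ | ⟨r, hr, h⟩
    · exact absurd hq (by simp [cfg])
    · rename_i T' G'
      rw [moves_R_some] at hr
      obtain ⟨b, rfl⟩ := hr
      rw [next_R_some] at h
      obtain ⟨p', suf', G1, T2, G2, h1, h2, h3, h4⟩ := ih _ _ _ _ _ h hq
      refine ⟨p', (W.st p c b).2 :: suf', W.ncost p c + G1, T2, G2, Sw.cons b h1, ?_, ?_, by omega⟩
      · simpa using h2
      · rw [cost_R_some]; omega

theorem left_of_comp (l : List W.C) (p : W.P) : ∀ (i : ℕ) (T G : ℕ) (c' : Cfg W.toNTM),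
    i ≤ l.length → W.toNTM.Comp (W.cfg (.L p) ((i : ℤ) - 1) l) T G c' → c'.q = St.acc →
    ∃ T2, T2 < T ∧ W.toNTM.Comp (W.cfg (.R p) 0 l) T2 G c' := by
  intro i
  induction i with
  | zero =>
    intro T G c' _ h hq
    have e : ((0 : ℕ) : ℤ) - 1 = -1 := by norm_num
    rw [e] at h
    rcases h with _ | ⟨r, hr, h⟩
    · exact absurd hq (by simp [cfg])
    · rename_i T' G'
      have hc : W.toNTM.cost (W.cfg (.L p) (-1) l) = 0 := W.cost_sub (moves_L_end W p l).subset
      rw [moves_L_end] at hr
      rw [Set.mem_singleton_iff.mp hr, next_L_end] at h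
      rw [hc]
      exact ⟨T', Nat.lt_succ_self _, h⟩
  | succ i ih =>
    intro T G c' hi h hq
    have e : ((i + 1 : ℕ) : ℤ) - 1 = i := by push_cast; ring
    rw [e] at h
    have hmv := moves_L W p i l (by omega) (by omega)
    rcases h with _ | ⟨r, hr, h⟩
    · exact absurd hq (by simp [cfg])
    · rename_i T' G'
      have hc : W.toNTM.cost (W.cfg (.L p) i l) = 0 := W.cost_sub hmv.subset
      rw [hmv] at hr
      rw [Set.mem_singleton_iff.mp hr, next_L] at h
      rw [hc]
      obtain ⟨T2, h2, h3⟩ := ih T' G' c' (by omega) h hq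
      exact ⟨T2, by omega, h3⟩

theorem sacc_of_comp : ∀ (T : ℕ) (p : W.P) (l : List W.C) (G : ℕ) (c' : Cfg W.toNTM),
    W.toNTM.Comp (W.cfg (.R p) 0 l) T G c' → c'.q = St.acc → ∃ k, W.SAcc p l k G := by
  intro T
  induction T using Nat.strong_induction_on with
  | _ T ih =>
  intro p l G c' h hq
  obtain ⟨p', l', G1, T2, G2, h1, h2, h3, h4⟩ := right_of_comp W l [] p T G c' (by simpa using h) hq
  simp only [List.nil_append] at h2
  have key : ∀ a : St W.P × Option W.C × SignType, W.delta (.R p') none ⊆ {a} →
      W.toNTM.cost (W.cfg (.R p') l'.length l') = 0 := by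
    intro a ha
    apply W.cost_sub (a := a)
    rw [moves_R_end]; exact ha
  rcases h2 with _ | ⟨r, hr, h2⟩
  · exact absurd hq (by simp [cfg])
  · rename_i T' G'
    rw [moves_R_end] at hr
    cases hf : W.fin p' with
    | acc =>
      have hd : W.delta (.R p') none = {(St.acc, none, 0)} := by simp only [delta, hf]
      rw [key _ hd.subset] at h3
      rw [hd] at hr
      rw [Set.mem_singleton_iff.mp hr, next_R_end] at h2
      rcases h2 with _ | ⟨r', hr', h2⟩
      · refine ⟨1, ?_⟩
        rw [h3]
        exact SAcc.last h1 hf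
      · exfalso
        rw [moves_acc] at hr'
        exact hr'
    | rej =>
      exfalso
      simp only [delta, hf] at hr
      exact hr
    | cont p'' =>
      have hd : W.delta (.R p') none = {(St.L p'', none, -1)} := by simp only [delta, hf]
      rw [key _ hd.subset] at h3
      rw [hd] at hr
      rw [Set.mem_singleton_iff.mp hr, next_R_end] at h2
      have e : (l'.length : ℤ) + ((-1 : SignType) : ℤ) = ((l'.length : ℕ) : ℤ) - 1 := by
        simp; ring
      rw [e] at h2
      obtain ⟨T3, h5, h6⟩ := left_of_comp W l' p'' l'.length T' G' c' le_rfl h2 hq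
      obtain ⟨k, hk⟩ := ih T3 (by omega) p'' l' G' c' h6 hq
      refine ⟨k + 1, ?_⟩
      rw [h3, add_zero]
      exact SAcc.more h1 hf hk

/-! ### From sweeps to computations -/

theorem Sw.length {p p' : W.P} {l l' : List W.C} {G : ℕ} (h : W.Sw p l G p' l') :
    l'.length = l.length := by
  induction h with
  | nil p => rfl
  | cons b h ih => simp [ih]

theorem comp_of_sw {p p' : W.P} {suf suf' : List W.C} {G : ℕ} (h : W.Sw p suf G p' suf') :
    ∀ (pre : List W.C) (T G2 : ℕ) (c' : Cfg W.toNTM),
      W.toNTM.Comp (W.cfg (.R p') (pre ++ suf').length (pre ++ suf')) T G2 c' →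
      W.toNTM.Comp (W.cfg (.R p) pre.length (pre ++ suf)) (T + suf.length) (G + G2) c' := by
  induction h with
  | nil p =>
    intro pre T G2 c' h
    simpa using h
  | @cons p c l n p' l' b h ih =>
    intro pre T G2 c' hc
    have h1 := ih (pre ++ [(W.st p c b).2]) T G2 c' (by simpa using hc)
    have h2 : W.toNTM.Comp (W.toNTM.next (W.cfg (.R p) pre.length (pre ++ c :: l))
        (St.R (W.st p c b).1, some (W.st p c b).2, 1)) (T + l.length) (n + G2) c' := by
      rw [next_R_some]; exact h1
    have h3 := NTM.Comp.step (M := W.toNTM) _ (by rw [moves_R_some]; exact ⟨b, rfl⟩) h2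
    rw [cost_R_some] at h3
    have e1 : T + (c :: l).length = T + l.length + 1 := by simp; ring
    have e2 : W.ncost p c + n + G2 = n + G2 + W.ncost p c := by ring
    rw [e1, e2]
    exact h3

theorem comp_left (l : List W.C) (p : W.P) {T G : ℕ} {c' : Cfg W.toNTM}
    (h : W.toNTM.Comp (W.cfg (.R p) 0 l) T G c') : ∀ i : ℕ, i ≤ l.length →
      W.toNTM.Comp (W.cfg (.L p) ((i : ℤ) - 1) l) (T + i + 1) G c' := by
  intro i
  induction i with
  | zero =>
    intro _
    have e : ((0 : ℕ) : ℤ) - 1 = -1 := by norm_num
    rw [e]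
    have h3 := NTM.Comp.step (M := W.toNTM) (c := W.cfg (.L p) (-1) l) (St.R p, none, 1)
      (by rw [moves_L_end]; rfl) (by rw [next_L_end]; exact h)
    rw [W.cost_sub (moves_L_end W p l).subset] at h3
    exact h3
  | succ i ih =>
    intro hi
    have e : ((i + 1 : ℕ) : ℤ) - 1 = i := by push_cast; ring
    rw [e]
    have hmv := moves_L W p i l (by omega) (by omega)
    have h3 := NTM.Comp.step (M := W.toNTM) (c := W.cfg (.L p) i l) (St.L p, W.tp l i, -1)
      (by rw [hmv]; rfl) (by rw [next_L]; exact ih (by omega))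
    rw [W.cost_sub hmv.subset] at h3
    exact h3

theorem comp_of_sacc {p : W.P} {l : List W.C} {k G : ℕ} (h : W.SAcc p l k G) :
    ∃ (T : ℕ) (c' : Cfg W.toNTM), T ≤ (2 * l.length + 2) * k ∧
      W.toNTM.Comp (W.cfg (.R p) 0 l) T G c' ∧ c'.q = St.acc := by
  induction h with
  | @last p p' l l' G h hf =>
    have hd : W.delta (.R p') none = {(St.acc, none, 0)} := by simp only [delta, hf]
    have h1 := NTM.Comp.step (M := W.toNTM) (c := W.cfg (.R p') l'.length l') (St.acc, none, 0)
      (by rw [moves_R_end, hd]; rfl) (NTM.Comp.refl _)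
    rw [W.cost_sub (a := (St.acc, none, 0)) (by rw [moves_R_end]; exact hd.subset)] at h1
    have h2 := comp_of_sw W h [] 1 0 _ (by simpa using h1)
    refine ⟨_, _, ?_, by simpa using h2, rfl⟩
    omega
  | @more p p' p'' l l' k G G' h hf h' ih =>
    obtain ⟨T, c', hT, hc, hq⟩ := ih
    have hlen := Sw.length W h
    have hd : W.delta (.R p') none = {(St.L p'', none, -1)} := by simp only [delta, hf]
    have e : (l'.length : ℤ) + ((-1 : SignType) : ℤ) = ((l'.length : ℕ) : ℤ) - 1 := by
      simp; ring
    have h1 := NTM.Comp.step (M := W.toNTM) (c := W.cfg (.R p') l'.length l') (St.L p'', none, -1)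
      (by rw [moves_R_end, hd]; rfl)
      (by rw [next_R_end, e]; exact comp_left W l' p'' hc l'.length le_rfl)
    rw [W.cost_sub (a := (St.L p'', none, -1)) (by rw [moves_R_end]; exact hd.subset)] at h1
    have h2 := comp_of_sw W h [] _ _ _ (by simpa using h1)
    refine ⟨_, c', ?_, by simpa using h2, hq⟩
    rw [hlen] at hT ⊢
    have : (2 * l.length + 2) * (k + 1) = (2 * l.length + 2) * k + (2 * l.length + 2) := by ring
    rw [this]
    omega

theorem acceptsIn_of_sacc {w : List A} {k G : ℕ} (h : W.SAcc W.start (w.map W.ini) k G) :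
    ∃ T, T ≤ (2 * w.length + 2) * k ∧ W.toNTM.AcceptsIn w T G := by
  obtain ⟨T, c', h1, h2, h3⟩ := comp_of_sacc W h
  rw [List.length_map] at h1
  refine ⟨T, h1, c', ?_, h3⟩
  rw [init_eq]
  exact h2

theorem sacc_of_acceptsIn {w : List A} {T G : ℕ} (h : W.toNTM.AcceptsIn w T G) :
    ∃ k, W.SAcc W.start (w.map W.ini) k G := by
  obtain ⟨c', h1, h2⟩ := h
  rw [init_eq] at h1
  exact sacc_of_comp W T _ _ G c' h1 h2

end Sweeper

end Pool.Agent.helper20.OT
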