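import Mathlib
import Pool.Agent.helper20.OT.Sweep

set_option autoImplicit false

/-!
# Counting tracks: approximate counting by repeated elimination
-/

namespace Pool.Agent.helper20.OT

open Pool.Agent.helper24.OT

/-- rounded-up division -/
def cdiv (n K : ℕ) : ℕ := (n + K - 1) / K

theorem cdiv_zero {K : ℕ} (hK : 2 ≤ K) : cdiv 0 K = 0 := by
  unfold cdiv
  exact Nat.div_eq_of_lt (by omega)

theorem cdiv_succ_dvd {n K : ℕ} (hK : 2 ≤ K) (h : K ∣ n) : cdiv (n + 1) K = cdiv n K + 1 := by
  obtain ⟨m, rfl⟩ := h
  unfold cdiv
  have e1 : K * m + 1 + K - 1 = K * (m + 1) := by rw [Nat.mul_succ]; omega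
  have e2 : K * m + K - 1 = K * m + (K - 1) := by omega
  rw [e1, e2, Nat.mul_div_cancel_left _ (by omega), Nat.mul_add_div (by omega),
    Nat.div_eq_of_lt (by omega)]

theorem cdiv_succ_not_dvd {n K : ℕ} (hK : 2 ≤ K) (h : ¬ K ∣ n) : cdiv (n + 1) K = cdiv n K := by
  unfold cdiv
  have h1 : 1 ≤ n % K := Nat.one_le_iff_ne_zero.mpr fun h' => h (Nat.dvd_of_mod_eq_zero h')
  have h2 : n % K < K := Nat.mod_lt _ (by omega)
  have e := Nat.div_add_mod n K
  have a1 : n + 1 + K - 1 = K * (n / K) + (n % K + K) := by omega
  have a2 : n + K - 1 = K * (n / K) + (n % K + K - 1) := by omega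
  rw [a1, a2, Nat.mul_add_div (by omega), Nat.mul_add_div (by omega)]
  congr 1
  have b1 : (n % K + K) / K = 1 := by
    rw [Nat.add_div_right _ (by omega), Nat.div_eq_of_lt h2]
  have b2 : (n % K + K - 1) / K = 1 := by
    have : n % K + K - 1 = (n % K - 1) + K := by omega
    rw [this, Nat.add_div_right _ (by omega), Nat.div_eq_of_lt (by omega)]
  rw [b1, b2]

theorem cdiv_mono {m n K : ℕ} (h : m ≤ n) : cdiv m K ≤ cdiv n K := by
  unfold cdiv
  exact Nat.div_le_div_right (by omega)

theorem cdiv_max (m n K : ℕ) : cdiv (max m n) K = max (cdiv m K) (cdiv n K) := by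
  rcases le_total m n with h | h
  · rw [max_eq_right h, max_eq_right (cdiv_mono h)]
  · rw [max_eq_left h, max_eq_left (cdiv_mono h)]

theorem cdiv_le_iff {n K x : ℕ} (hK : 2 ≤ K) : cdiv n K ≤ x ↔ n ≤ K * x := by
  unfold cdiv
  rw [Nat.div_le_iff_le_mul_add_pred (by omega)]
  omega

/-- the state of a track: the counter, whether the current segment contains an item, and whether
some segment contains two items -/
structure Trk (K : ℕ) where
  c : ZMod K
  one : Bool
  big : Bool

theorem Trk.finite {K : ℕ} (hK : 2 ≤ K) : Finite (Trk K) := by
  have : NeZero K := ⟨by omega⟩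
  let f : Trk K → ZMod K × Bool × Bool := fun t => (t.c, t.one, t.big)
  refine Finite.of_injective f ?_
  rintro ⟨a, b, c⟩ ⟨a', b', c'⟩ h
  simp_all [f]

/-- one step of a track -/
def tstep {K : ℕ} (rs it : Bool) (t : Trk K) (f : Bool) : Trk K × Bool :=
  if rs then (⟨0, false, t.big⟩, f)
  else if it && f then (⟨t.c + 1, true, t.big || t.one⟩, decide (t.c = 0))
  else (t, f)

/-- a whole pass -/
def trun {K : ℕ} (rs it : Fin 5 → Bool) : Trk K → List (Fin 5 × Bool) → Trk K × List (Fin 5 × Bool)
  | t, [] => (t, [])
  | t, (a, f) :: l => ((trun rs it (tstep (rs a) (it a) t f).1 l).1,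
      (a, (tstep (rs a) (it a) t f).2) :: (trun rs it (tstep (rs a) (it a) t f).1 l).2)

/-- the maximal number of items in a segment -/
def mu (rs it : Fin 5 → Bool) : ℕ → List (Fin 5 × Bool) → ℕ
  | n, [] => n
  | n, (a, f) :: l => if rs a then max n (mu rs it 0 l)
      else if it a && f then mu rs it (n + 1) l else mu rs it n l

theorem trun_spec {K : ℕ} (hK : 2 ≤ K) (rs it : Fin 5 → Bool) (l : List (Fin 5 × Bool)) :
    ∀ (n : ℕ) (t : Trk K), t.c = (n : ZMod K) → t.one = decide (1 ≤ n) →
      (2 ≤ n → t.big = true) →
      (((trun rs it t l).1.big = true ↔ (t.big = true ∨ 2 ≤ mu rs it n l)) ∧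
        mu rs it (cdiv n K) (trun rs it t l).2 = cdiv (mu rs it n l) K) := by
  induction l with
  | nil =>
    intro n t hc h1 h2
    refine ⟨?_, rfl⟩
    simp only [trun, mu]
    constructor
    · exact Or.inl
    · rintro (h | h)
      · exact h
      · exact h2 h
  | cons x l ih =>
    obtain ⟨a, f⟩ := x
    intro n t hc h1 h2
    simp only [trun, mu]
    unfold tstep
    by_cases hrs : rs a = true
    · simp only [hrs, if_true]
      obtain ⟨i1, i2⟩ := ih 0 ⟨0, false, t.big⟩ (by simp) (by simp) (by simp)
      rw [i1]
      constructor
      · simp only [le_max_iff]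
        constructor
        · rintro (h | h)
          · exact Or.inl h
          · exact Or.inr (Or.inr h)
        · rintro (h | h | h)
          · exact Or.inl h
          · exact Or.inl (h2 h)
          · exact Or.inr h
      · rw [cdiv_zero hK] at i2
        rw [i2, cdiv_max]
    · simp only [hrs, if_false, Bool.false_eq_true]
      by_cases hit : (it a && f) = true
      · simp only [hit, if_true]
        obtain ⟨i1, i2⟩ := ih (n + 1) ⟨t.c + 1, true, t.big || t.one⟩ (by rw [hc]; push_cast; rfl)
          (by simp) (by
            intro hn
            have : t.one = true := by rw [h1]; simp; omega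
            simp [this])
        constructor
        · rw [i1]
          simp only [Bool.or_eq_true]
          constructor
          · rintro ((h | h) | h)
            · exact Or.inl h
            · right
              rw [h1, decide_eq_true_eq] at h
              have hmono : ∀ (l : List (Fin 5 × Bool)) (n : ℕ), n ≤ mu rs it n l := by
                intro l
                induction l with
                | nil => intro n; exact le_rfl
                | cons x l ih' =>
                  intro n
                  obtain ⟨a, f⟩ := x
                  simp only [mu]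
                  split_ifs
                  · exact le_max_left _ _
                  · exact (Nat.le_succ n).trans (ih' _)
                  · exact ih' _
              have := hmono l (n + 1)
              omega
            · exact Or.inr h
          · rintro (h | h)
            · exact Or.inl (Or.inl h)
            · exact Or.inr h
        · rw [← i2]
          have hia : it a = true := by simp at hit; exact hit.1
          by_cases hd : K ∣ n
          · have hc0 : t.c = 0 := by rw [hc]; exact (ZMod.natCast_eq_zero_iff _ _).mpr hd
            simp only [hc0, hia, decide_true, Bool.and_self, if_true]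
            rw [cdiv_succ_dvd hK hd]
          · have hc0 : t.c ≠ 0 := by rw [hc]; exact fun h => hd ((ZMod.natCast_eq_zero_iff _ _).mp h)
            simp only [hc0, hia, decide_false, Bool.and_false, if_false, Bool.false_eq_true]
            rw [cdiv_succ_not_dvd hK hd]
      · simp only [hit, if_false, Bool.false_eq_true]
        exact ih n t hc h1 h2

end Pool.Agent.helper20.OT
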