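import Mathlib
import Pool.Agent.helper20.OT.Track

set_option autoImplicit false

/-!
# The machine
-/

namespace Pool.Agent.helper20.OT

open Pool.Agent.helper24.OT

/-- cell contents: letter, three counting flags, mark, activity -/
structure Cell where
  a : Fin 5
  fA : Bool
  fS : Bool
  fR : Bool
  mark : Bool
  ac : Bool
deriving DecidableEq

theorem Cell.finite : Finite Cell := by
  let f : Cell → Fin 5 × Bool × Bool × Bool × Bool × Bool :=
    fun x => (x.a, x.fA, x.fS, x.fR, x.mark, x.ac)
  refine Finite.of_injective f ?_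
  rintro ⟨a, b, c, d, e, g⟩ ⟨a', b', c', d', e', g'⟩ h
  simp_all [f]

/-- the state of a guess sweep -/
structure GS where
  /-- the guess of the current region -/
  β : Bool
  /-- inside a current block -/
  opn : Bool
  /-- the current block has no active one so far -/
  need : Bool
  /-- an active cell was seen in the current block -/
  one : Bool
  /-- parity of the number of active cells seen in the current block -/
  par : Bool
  /-- some current block has two active cells -/
  more : Bool
  /-- some current block has no active one -/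
  bad : Bool
deriving DecidableEq

theorem GS.finite : Finite GS := by
  let f : GS → Bool × Bool × Bool × Bool × Bool × Bool × Bool :=
    fun x => (x.β, x.opn, x.need, x.one, x.par, x.more, x.bad)
  refine Finite.of_injective f ?_
  rintro ⟨a, b, c, d, e, g, h⟩ ⟨a', b', c', d', e', g', h'⟩ hh
  simp_all [f]

/-- the initial state of a guess sweep -/
def q0 : GS := ⟨false, false, false, false, false, false, false⟩

/-- the bit letters -/
def isb (a : Fin 5) : Bool := decide (a = 0) || decide (a = 1)

/-- a step of a guess sweep -/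
def gst (q : GS) (x : Cell) (b : Bool) : GS × Cell :=
  if isb x.a then
    if q.opn && x.ac then
      ({ q with
          need := q.need && !(decide (x.a = 1))
          one := true
          par := !q.par
          more := q.more || q.one }, { x with ac := (q.par == q.β) })
    else (q, x)
  else
    ({ β := if x.a = 3 then b else q.β
       opn := decide (x.a = 2) && x.mark
       need := decide (x.a = 2) && x.mark
       one := false
       par := false
       more := q.more
       bad := q.bad || q.need }, x)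

/-- the states of the machine -/
inductive PS (KA KS KR : ℕ) where
  | p1 (tA : Trk KA) (tS : Trk KS) (tR : Trk KR) : PS KA KS KR
  | ini (k0 : Bool) : PS KA KS KR
  | gs (q : GS) : PS KA KS KR
  | adv (pend any : Bool) : PS KA KS KR

theorem PS.finite {KA KS KR : ℕ} (hA : 2 ≤ KA) (hS : 2 ≤ KS) (hR : 2 ≤ KR) :
    Finite (PS KA KS KR) := by
  have := Trk.finite hA
  have := Trk.finite hS
  have := Trk.finite hR
  have := GS.finite
  let f : PS KA KS KR → (Trk KA × Trk KS × Trk KR) ⊕ Bool ⊕ GS ⊕ (Bool × Bool) := fun s =>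
    match s with
    | .p1 a b c => Sum.inl (a, b, c)
    | .ini k => Sum.inr (Sum.inl k)
    | .gs q => Sum.inr (Sum.inr (Sum.inl q))
    | .adv p a => Sum.inr (Sum.inr (Sum.inr (p, a)))
  refine Finite.of_injective f ?_
  rintro (⟨a, b, c⟩ | k | q | ⟨p, a⟩) (⟨a', b', c'⟩ | k' | q' | ⟨p', a'⟩) h <;> simp_all [f]

/-- the initial track -/
def t0 (K : ℕ) : Trk K := ⟨0, false, false⟩

/-- letters of the `#` -/
def is3 (a : Fin 5) : Bool := decide (a = 3)

/-- letters of the `;` -/
def is2 (a : Fin 5) : Bool := decide (a = 2)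

/-- ends of parts -/
def isp (a : Fin 5) : Bool := decide (a = 3) || decide (a = 4)

/-- a step of the machine -/
def step (KA KS KR : ℕ) : PS KA KS KR → Cell → Bool → PS KA KS KR × Cell
  | .p1 tA tS tR, x, _ =>
    (.p1 (tstep false true tA x.fA).1 (tstep false (is3 x.a) tS x.fS).1
        (tstep (is3 x.a) (is2 x.a) tR x.fR).1,
      ⟨x.a, (tstep false true tA x.fA).2, (tstep false (is3 x.a) tS x.fS).2,
        (tstep (is3 x.a) (is2 x.a) tR x.fR).2, x.mark, x.ac⟩)
  | .ini k0, x, _ =>
    (.ini (if is2 x.a then false else if isp x.a then true else k0),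
      ⟨x.a, false, false, false, is2 x.a && k0, true⟩)
  | .gs q, x, b => (.gs (gst q x b).1, (gst q x b).2)
  | .adv pend any, x, _ =>
    (.adv (if is2 x.a then x.mark else if isp x.a then false else pend)
        (any || (is2 x.a && pend)),
      ⟨x.a, false, false, false, is2 x.a && pend, true⟩)

/-- the decision at the right end -/
def fin (KA KS KR : ℕ) : PS KA KS KR → Verdict (PS KA KS KR)
  | .p1 tA tS tR =>
    if (!tS.big) && (!tR.big) then .cont (.ini true)
    else if tA.big then .cont (.p1 (t0 KA) (t0 KS) (t0 KR)) else .rej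
  | .ini _ => .cont (.gs q0)
  | .gs q => if q.more then .cont (.gs q0) else if q.bad || q.need then .rej
      else .cont (.adv false false)
  | .adv _ any => if any then .cont (.gs q0) else .acc

/-- the sweeping machine -/
@[reducible] def mach (KA KS KR : ℕ) (hA : 2 ≤ KA) (hS : 2 ≤ KS) (hR : 2 ≤ KR) :
    Sweeper (Fin 5) where
  P := PS KA KS KR
  C := Cell
  finP := PS.finite hA hS hR
  finC := Cell.finite
  ini := fun a => ⟨a, true, true, true, false, true⟩
  start := .p1 (t0 KA) (t0 KS) (t0 KR)
  st := step KA KS KR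
  fin := fin KA KS KR

variable {KA KS KR : ℕ} {hA : 2 ≤ KA} {hS : 2 ≤ KS} {hR : 2 ≤ KR}

/-! ### Deterministic sweeps -/

/-- the deterministic run of a sweep -/
def drun (W : Sweeper (Fin 5)) : W.P → List W.C → W.P × List W.C
  | p, [] => (p, [])
  | p, c :: l => ((drun W (W.st p c false).1 l).1, (W.st p c false).2 ::
      (drun W (W.st p c false).1 l).2)

theorem sw_det (W : Sweeper (Fin 5)) (D : W.P → Prop)
    (hD : ∀ p, D p → ∀ c b, W.st p c b = W.st p c false ∧ D (W.st p c false).1)
    {p p' : W.P} {l l' : List W.C} {G : ℕ} (h : W.Sw p l G p' l') (hp : D p) :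
    p' = (drun W p l).1 ∧ l' = (drun W p l).2 ∧ G = 0 := by
  induction h with
  | nil p => exact ⟨rfl, rfl, rfl⟩
  | @cons p c l n p' l' b h ih =>
    obtain ⟨h1, h2⟩ := hD p hp c b
    rw [h1] at ih
    obtain ⟨i1, i2, i3⟩ := ih h2
    refine ⟨i1, ?_, ?_⟩
    · simp only [drun]
      rw [h1, i2]
    · rw [i3]
      unfold Sweeper.ncost
      rw [if_pos (hD p hp c true).1.symm]

theorem sw_drun (W : Sweeper (Fin 5)) (D : W.P → Prop)
    (hD : ∀ p, D p → ∀ c b, W.st p c b = W.st p c false ∧ D (W.st p c false).1) :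
    ∀ (l : List W.C) (p : W.P), D p → W.Sw p l 0 (drun W p l).1 (drun W p l).2 := by
  intro l
  induction l with
  | nil => intro p _; exact Sweeper.Sw.nil p
  | cons c l ih =>
    intro p hp
    have h1 := Sweeper.Sw.cons (W := W) (c := c) (p := p) false (ih _ (hD p hp c false).2)
    have h2 : W.ncost p c = 0 := by
      unfold Sweeper.ncost
      rw [if_pos (hD p hp c true).1.symm]
    rw [h2] at h1
    exact h1

/-! ### Phase 1 -/

/-- letters -/
def lt (l : List Cell) : List (Fin 5) := l.map Cell.a

/-- letters and flags -/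
def lA (l : List Cell) : List (Fin 5 × Bool) := l.map fun x => (x.a, x.fA)

/-- letters and flags -/
def lS (l : List Cell) : List (Fin 5 × Bool) := l.map fun x => (x.a, x.fS)

/-- letters and flags -/
def lR (l : List Cell) : List (Fin 5 × Bool) := l.map fun x => (x.a, x.fR)

/-- number of cells with a flag -/
def mA (l : List Cell) : ℕ := mu (fun _ => false) (fun _ => true) 0 (lA l)

/-- number of flagged `#` -/
def mS (l : List Cell) : ℕ := mu (fun _ => false) is3 0 (lS l)

/-- maximal number of flagged `;` in a region -/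
def mR (l : List Cell) : ℕ := mu is3 is2 0 (lR l)

theorem drun_p1 (l : List Cell) : ∀ (tA : Trk KA) (tS : Trk KS) (tR : Trk KR),
    (drun (mach KA KS KR hA hS hR) (.p1 tA tS tR) l).1 =
      .p1 (trun (fun _ => false) (fun _ => true) tA (lA l)).1
        (trun (fun _ => false) is3 tS (lS l)).1 (trun is3 is2 tR (lR l)).1 ∧
    lt (drun (mach KA KS KR hA hS hR) (.p1 tA tS tR) l).2 = lt l ∧
    lA (drun (mach KA KS KR hA hS hR) (.p1 tA tS tR) l).2 =
      (trun (fun _ => false) (fun _ => true) tA (lA l)).2 ∧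
    lS (drun (mach KA KS KR hA hS hR) (.p1 tA tS tR) l).2 =
      (trun (fun _ => false) is3 tS (lS l)).2 ∧
    lR (drun (mach KA KS KR hA hS hR) (.p1 tA tS tR) l).2 = (trun is3 is2 tR (lR l)).2 := by
  induction l with
  | nil => intro tA tS tR; exact ⟨rfl, rfl, rfl, rfl, rfl⟩
  | cons x l ih =>
    intro tA tS tR
    obtain ⟨i1, i2, i3, i4, i5⟩ := ih (tstep false true tA x.fA).1
      (tstep false (is3 x.a) tS x.fS).1 (tstep (is3 x.a) (is2 x.a) tR x.fR).1
    refine ⟨?_, ?_, ?_, ?_, ?_⟩
    · exact i1
    · simp only [drun, lt, List.map_cons] at i2 ⊢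
      exact congrArg (List.cons x.a) i2
    · simp only [drun, lA, List.map_cons, trun] at i3 ⊢
      exact congrArg (List.cons _) i3
    · simp only [drun, lS, List.map_cons, trun] at i4 ⊢
      exact congrArg (List.cons _) i4
    · simp only [drun, lR, List.map_cons, trun] at i5 ⊢
      exact congrArg (List.cons _) i5

/-- the phase 1 states -/
def D1 : PS KA KS KR → Prop
  | .p1 _ _ _ => True
  | _ => False

theorem D1_det (p : PS KA KS KR) (hp : D1 p) (c : Cell) (b : Bool) :
    (mach KA KS KR hA hS hR).st p c b = (mach KA KS KR hA hS hR).st p c false ∧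
      D1 ((mach KA KS KR hA hS hR).st p c false).1 := by
  cases p <;> simp_all [D1, step]

/-- the initial state of phase 1 -/
def s1 : PS KA KS KR := .p1 (t0 KA) (t0 KS) (t0 KR)

/-- the effect of a sweep of phase 1 -/
theorem phase1_sweep (hA : 2 ≤ KA) (hS : 2 ≤ KS) (hR : 2 ≤ KR) (l : List Cell) :
    ∃ (tA : Trk KA) (tS : Trk KS) (tR : Trk KR) (l' : List Cell),
      (mach KA KS KR hA hS hR).Sw s1 l 0 (.p1 tA tS tR) l' ∧
      (∀ (p' : PS KA KS KR) (l'' : List Cell) (G : ℕ),
        (mach KA KS KR hA hS hR).Sw s1 l G p' l'' → p' = .p1 tA tS tR ∧ l'' = l' ∧ G = 0) ∧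
      (tA.big = true ↔ 2 ≤ mA l) ∧ (tS.big = true ↔ 2 ≤ mS l) ∧ (tR.big = true ↔ 2 ≤ mR l) ∧
      mA l' = cdiv (mA l) KA ∧ mS l' = cdiv (mS l) KS ∧ mR l' = cdiv (mR l) KR ∧
      lt l' = lt l := by
  obtain ⟨h1, h2, h3, h4, h5⟩ := drun_p1 (hA := hA) (hS := hS) (hR := hR) l (t0 KA) (t0 KS) (t0 KR)
  obtain ⟨a1, a2⟩ := trun_spec hA (fun _ => false) (fun _ => true) (lA l) 0 (t0 KA)
    (by simp [t0]) (by simp [t0]) (by simp)
  obtain ⟨b1, b2⟩ := trun_spec hS (fun _ => false) is3 (lS l) 0 (t0 KS)
    (by simp [t0]) (by simp [t0]) (by simp)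
  obtain ⟨c1, c2⟩ := trun_spec hR is3 is2 (lR l) 0 (t0 KR)
    (by simp [t0]) (by simp [t0]) (by simp)
  refine ⟨(trun (fun _ => false) (fun _ => true) (t0 KA) (lA l)).1,
    (trun (fun _ => false) is3 (t0 KS) (lS l)).1, (trun is3 is2 (t0 KR) (lR l)).1,
    (drun (mach KA KS KR hA hS hR) s1 l).2, ?_, ?_, ?_, ?_, ?_, ?_, ?_, ?_, h2⟩
  · rw [← h1]
    exact sw_drun (mach KA KS KR hA hS hR) D1 D1_det l s1 trivial
  · intro p' l'' G h
    have := sw_det (mach KA KS KR hA hS hR) D1 D1_det h trivial
    rw [← h1]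
    exact this
  · rw [a1]; simp [t0, mA]
  · rw [b1]; simp [t0, mS]
  · rw [c1]; simp [t0, mR]
  · unfold mA; unfold s1; rw [h3]; rw [cdiv_zero hA] at a2; exact a2
  · unfold mS; unfold s1; rw [h4]; rw [cdiv_zero hS] at b2; exact b2
  · unfold mR; unfold s1; rw [h5]; rw [cdiv_zero hR] at c2; exact c2

end Pool.Agent.helper20.OT
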