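import Mathlib
import Pool.Agent.helper20.OT.Machine

set_option autoImplicit false

/-!
# Phase 1, initialisation and advance
-/

namespace Pool.Agent.helper20.OT

open Pool.Agent.helper24.OT

variable {KA KS KR : ℕ} {hA : 2 ≤ KA} {hS : 2 ≤ KS} {hR : 2 ≤ KR}

theorem sacc_inv {W : Sweeper (Fin 5)} {p : W.P} {l : List W.C} {k G : ℕ} (h : W.SAcc p l k G) :
    (∃ p' l', k = 1 ∧ W.Sw p l G p' l' ∧ W.fin p' = Verdict.acc) ∨
    (∃ p' p'' l' k' G1 G', k = k' + 1 ∧ G = G1 + G' ∧ W.Sw p l G1 p' l' ∧
      W.fin p' = Verdict.cont p'' ∧ W.SAcc p'' l' k' G') := by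
  cases h with
  | last h hf => exact Or.inl ⟨_, _, rfl, h, hf⟩
  | more h hf h' => exact Or.inr ⟨_, _, _, _, _, _, rfl, rfl, h, hf, h'⟩

theorem phase1_of_sacc : ∀ (k : ℕ) (l : List Cell) (G : ℕ),
    (mach KA KS KR hA hS hR).SAcc s1 l k G → ∃ (e k' : ℕ) (l' : List Cell),
      mS l ≤ KS ^ e ∧ mR l ≤ KR ^ e ∧ (e = 0 ∨ KA ^ (e - 1) < mA l) ∧ lt l' = lt l ∧
      k = e + 1 + k' ∧ (mach KA KS KR hA hS hR).SAcc (.ini true) l' k' G := by
  intro k
  induction k with
  | zero =>
    intro l G h
    exfalso
    rcases sacc_inv h with ⟨p', l', hk, -⟩ | ⟨p', p'', l', k', G1, G', hk, -⟩ <;> omega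
  | succ k ih =>
    intro l G h
    obtain ⟨tA, tS, tR, l1, -, huniq, bA, bS, bR, eA, eS, eR, el⟩ :=
      phase1_sweep hA hS hR l
    rcases sacc_inv h with ⟨p', l', hk, h, hf⟩ | ⟨p', p'', l', k', G1, G', hk, hG, h, hf, h'⟩
    · obtain ⟨rfl, -, -⟩ := huniq _ _ _ h
      exfalso
      simp only [fin] at hf
      split_ifs at hf
    · obtain ⟨rfl, rfl, rfl⟩ := huniq _ _ _ h
      rw [zero_add] at hG
      subst hG
      have hk' : k' = k := by omega
      subst hk'
      simp only [fin] at hf
      split_ifs at hf with h1 h2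
      · injection hf with hf
        subst hf
        have hSb : ¬ 2 ≤ mS l := by rw [← bS]; simp at h1; simp [h1.1]
        have hRb : ¬ 2 ≤ mR l := by rw [← bR]; simp at h1; simp [h1.2]
        refine ⟨0, k', l', by rw [pow_zero]; omega, by rw [pow_zero]; omega, Or.inl rfl, el,
          by omega, ?_⟩
        exact h'
      · injection hf with hf
        subst hf
        obtain ⟨e, k2, l2, i1, i2, i3, i4, i5, i6⟩ := ih _ _ h'
        rw [eS, cdiv_le_iff hS] at i1
        rw [eR, cdiv_le_iff hR] at i2
        refine ⟨e + 1, k2, l2, by rw [pow_succ, mul_comm]; exact i1,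
          by rw [pow_succ, mul_comm]; exact i2, Or.inr ?_, i4.trans el, by omega, ?_⟩
        · rw [Nat.add_sub_cancel]
          rcases i3 with rfl | i3
          · rw [pow_zero]
            have := bA.mp h2
            omega
          · have : ¬ mA l ≤ KA * KA ^ (e - 1) := by
              rw [← cdiv_le_iff hA, ← eA]
              omega
            rcases Nat.eq_zero_or_pos e with rfl | he
            · rw [pow_zero]
              have := bA.mp h2
              omega
            · obtain ⟨e', rfl⟩ : ∃ e', e = e' + 1 := ⟨e - 1, by omega⟩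
              rw [Nat.add_sub_cancel] at this
              rw [pow_succ, mul_comm]
              omega
        · exact i6

theorem sacc_of_phase1 : ∀ (e : ℕ) (l : List Cell), mS l ≤ KS ^ e → mR l ≤ KR ^ e →
    (1 ≤ e → 2 * KA ^ (e - 1) ≤ mA l) →
    (∀ l', lt l' = lt l → ∃ k G, (mach KA KS KR hA hS hR).SAcc (.ini true) l' k G) →
    ∃ k G, (mach KA KS KR hA hS hR).SAcc s1 l k G := by
  intro e
  induction e with
  | zero =>
    intro l h1 h2 _ h4
    obtain ⟨tA, tS, tR, l1, hsw, -, bA, bS, bR, eA, eS, eR, el⟩ := phase1_sweep hA hS hR l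
    obtain ⟨k, G, h5⟩ := h4 l1 el
    refine ⟨k + 1, 0 + G, Sweeper.SAcc.more hsw ?_ h5⟩
    have hSb : tS.big = false := by
      rw [← Bool.not_eq_true, bS]; rw [pow_zero] at h1; omega
    have hRb : tR.big = false := by
      rw [← Bool.not_eq_true, bR]; rw [pow_zero] at h2; omega
    simp only [fin, hSb, hRb, Bool.not_false, Bool.and_self, if_true]
  | succ e ih =>
    intro l h1 h2 h3 h4
    obtain ⟨tA, tS, tR, l1, hsw, -, bA, bS, bR, eA, eS, eR, el⟩ := phase1_sweep hA hS hR l
    by_cases hc : ((!tS.big) && (!tR.big)) = true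
    · obtain ⟨k, G, h5⟩ := h4 l1 el
      refine ⟨k + 1, 0 + G, Sweeper.SAcc.more hsw ?_ h5⟩
      simp only [fin, hc, if_true]
    · have hpos : 1 ≤ KA ^ e := Nat.one_le_pow _ _ (by omega)
      have h3' := h3 (by omega)
      rw [Nat.add_sub_cancel] at h3'
      have hAb : tA.big = true := by rw [bA]; omega
      obtain ⟨k, G, h5⟩ := ih l1
        (by rw [eS, cdiv_le_iff hS]; rw [pow_succ, mul_comm] at h1; exact h1)
        (by rw [eR, cdiv_le_iff hR]; rw [pow_succ, mul_comm] at h2; exact h2)
        (by
          intro he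
          rw [eA]
          obtain ⟨e', rfl⟩ : ∃ e', e = e' + 1 := ⟨e - 1, by omega⟩
          rw [Nat.add_sub_cancel]
          unfold cdiv
          rw [Nat.le_div_iff_mul_le (by omega)]
          rw [pow_succ] at h3'
          have : 2 * KA ^ e' * KA = 2 * (KA ^ e' * KA) := by ring
          omega)
        (by
          intro l' hl'
          exact h4 l' (hl'.trans el))
      refine ⟨k + 1, 0 + G, Sweeper.SAcc.more hsw ?_ h5⟩
      simp only [fin, hc, hAb, if_true]
      simp [s1]

/-! ### Marks -/

/-- the number of `;` seen in the current part -/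
def nk (a : Fin 5) (k : ℕ) : ℕ := if is2 a then k + 1 else if isp a then 0 else k

/-- the cells at the beginning of round `i` -/
def mkl (i : ℕ) : ℕ → List (Fin 5) → List Cell
  | _, [] => []
  | k, a :: w => ⟨a, false, false, false, is2 a && decide (k = i), true⟩ :: mkl i (nk a k) w

theorem lt_mkl (i : ℕ) (w : List (Fin 5)) : ∀ k, lt (mkl i k w) = w := by
  induction w with
  | nil => intro k; rfl
  | cons a w ih => intro k; simp only [mkl, lt, List.map_cons]; exact congrArg (List.cons a) (ih _)

/-- the maximal number of `;` in a part -/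
def pm : ℕ → List (Fin 5) → ℕ
  | k, [] => k
  | k, a :: w => if is2 a then pm (k + 1) w else if isp a then max k (pm 0 w) else pm k w

theorem le_pm (w : List (Fin 5)) : ∀ k, k ≤ pm k w := by
  induction w with
  | nil => intro k; exact le_rfl
  | cons a w ih =>
    intro k
    simp only [pm]
    split_ifs
    · exact (Nat.le_succ k).trans (ih _)
    · exact le_max_left _ _
    · exact ih _

theorem drun_ini (l : List Cell) : ∀ k : ℕ,
    (∃ k1, (drun (mach KA KS KR hA hS hR) (.ini (decide (k = 0))) l).1 = .ini k1) ∧
    (drun (mach KA KS KR hA hS hR) (.ini (decide (k = 0))) l).2 = mkl 0 k (lt l) := by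
  induction l with
  | nil => intro k; exact ⟨⟨_, rfl⟩, rfl⟩
  | cons x l ih =>
    intro k
    have e : (if is2 x.a = true then false else if isp x.a = true then true
        else decide (k = 0)) = decide (nk x.a k = 0) := by
      unfold nk
      split_ifs <;> simp
    obtain ⟨i1, i2⟩ := ih (nk x.a k)
    rw [← e] at i1 i2
    refine ⟨i1, ?_⟩
    simp only [drun, lt, List.map_cons, mkl] at i2 ⊢
    exact congrArg (List.cons _) i2

theorem drun_adv (i : ℕ) (w : List (Fin 5)) : ∀ (l : List Cell) (k : ℕ) (any : Bool),
    lt l = w → l.map Cell.mark = (mkl i k w).map Cell.mark → (i + 2 ≤ k → any = true) →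
    ∃ pend any', (drun (mach KA KS KR hA hS hR) (.adv (decide (k = i + 1)) any) l).1 =
      .adv pend any' ∧ (any' = true ↔ (any = true ∨ i + 2 ≤ pm k w)) ∧
    (drun (mach KA KS KR hA hS hR) (.adv (decide (k = i + 1)) any) l).2 = mkl (i + 1) k w := by
  induction w with
  | nil =>
    intro l k any h1 h2 h3
    have : l = [] := by simpa [lt] using h1
    subst this
    refine ⟨_, any, rfl, ?_, rfl⟩
    simp only [pm]
    constructor
    · exact Or.inl
    · rintro (h | h)
      · exact h
      · exact h3 h
  | cons a w ih =>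
    intro l k any h1 h2 h3
    rcases l with _ | ⟨x, l⟩
    · simp [lt] at h1
    simp only [lt, List.map_cons, List.cons.injEq] at h1
    obtain ⟨h1a, h1b⟩ := h1
    subst h1a
    simp only [mkl, List.map_cons, List.cons.injEq] at h2
    obtain ⟨h2a, h2b⟩ := h2
    have e : (if is2 x.a = true then x.mark else if isp x.a = true then false
        else decide (k = i + 1)) = decide (nk x.a k = i + 1) := by
      unfold nk
      split_ifs with c1 c2
      · rw [h2a, c1]
        simp
      · simp
      · rfl
    have hany : i + 2 ≤ nk x.a k → (any || (is2 x.a && decide (k = i + 1))) = true := by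
      unfold nk
      split_ifs with c1 c2
      · intro h
        by_cases h' : k = i + 1
        · simp [c1, h']
        · have := h3 (by omega)
          simp [this]
      · intro h; omega
      · intro h
        have := h3 h
        simp [this]
    obtain ⟨pend, any', i1, i2, i3⟩ := ih l (nk x.a k)
      (any || (is2 x.a && decide (k = i + 1))) h1b h2b hany
    rw [← e] at i1 i3
    refine ⟨pend, any', i1, ?_, ?_⟩
    · rw [i2]
      simp only [pm]
      unfold nk
      by_cases c1 : is2 x.a = true
      · simp only [c1, if_true, Bool.true_and, Bool.or_eq_true, decide_eq_true_eq]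
        have := le_pm w (k + 1)
        constructor
        · rintro ((h | h) | h)
          · exact Or.inl h
          · right; omega
          · exact Or.inr h
        · rintro (h | h)
          · exact Or.inl (Or.inl h)
          · exact Or.inr h
      · simp only [c1, if_false, Bool.false_eq_true, Bool.false_and, Bool.or_false]
        by_cases c2 : isp x.a = true
        · simp only [c2, if_true, le_max_iff]
          constructor
          · rintro (h | h)
            · exact Or.inl h
            · exact Or.inr (Or.inr h)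
          · rintro (h | h | h)
            · exact Or.inl h
            · exact Or.inl (h3 h)
            · exact Or.inr h
        · simp only [c2, if_false, Bool.false_eq_true]
    · simp only [drun, mkl]
      exact congrArg (List.cons _) i3

/-- the states of the initialisation -/
def D2 : PS KA KS KR → Prop
  | .ini _ => True
  | _ => False

theorem D2_det (p : PS KA KS KR) (hp : D2 p) (c : Cell) (b : Bool) :
    (mach KA KS KR hA hS hR).st p c b = (mach KA KS KR hA hS hR).st p c false ∧
      D2 ((mach KA KS KR hA hS hR).st p c false).1 := by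
  cases p <;> simp_all [D2, step]

/-- the states of an advance sweep -/
def D3 : PS KA KS KR → Prop
  | .adv _ _ => True
  | _ => False

theorem D3_det (p : PS KA KS KR) (hp : D3 p) (c : Cell) (b : Bool) :
    (mach KA KS KR hA hS hR).st p c b = (mach KA KS KR hA hS hR).st p c false ∧
      D3 ((mach KA KS KR hA hS hR).st p c false).1 := by
  cases p <;> simp_all [D3, step]

/-- the initialisation -/
theorem sacc_ini (l : List Cell) (k G : ℕ) :
    (mach KA KS KR hA hS hR).SAcc (.ini true) l k G ↔
      ∃ k', k = k' + 1 ∧ (mach KA KS KR hA hS hR).SAcc (.gs q0) (mkl 0 0 (lt l)) k' G := by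
  obtain ⟨⟨k1, h1⟩, h2⟩ := drun_ini (hA := hA) (hS := hS) (hR := hR) l 0
  simp only [decide_true] at h1 h2
  constructor
  · intro h
    rcases sacc_inv h with ⟨p', l', hk, h, hf⟩ | ⟨p', p'', l', k', G1, G', hk, hG, h, hf, h'⟩
    · obtain ⟨i1, -, -⟩ := sw_det (mach KA KS KR hA hS hR) D2 D2_det h trivial
      exfalso
      rw [i1, h1] at hf
      simp only [fin] at hf
      exact absurd hf (by simp)
    · obtain ⟨i1, i2, i3⟩ := sw_det (mach KA KS KR hA hS hR) D2 D2_det h trivial
      refine ⟨k', hk, ?_⟩
      rw [i1, h1] at hf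
      simp only [fin] at hf
      injection hf with hf
      rw [hG, i3, zero_add, ← h2, ← i2, hf]
      exact h'
  · rintro ⟨k', rfl, h⟩
    have hsw := sw_drun (mach KA KS KR hA hS hR) D2 D2_det l (.ini true) trivial
    rw [h1, h2] at hsw
    have := Sweeper.SAcc.more hsw (by simp only [fin]) h
    rw [zero_add] at this
    exact this

/-- the advance sweep -/
theorem sacc_adv (i : ℕ) (w : List (Fin 5)) (l : List Cell) (h1 : lt l = w)
    (h2 : l.map Cell.mark = (mkl i 0 w).map Cell.mark) (k G : ℕ) :
    (mach KA KS KR hA hS hR).SAcc (.adv false false) l k G ↔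
      (k = 1 ∧ G = 0 ∧ ¬ i + 2 ≤ pm 0 w) ∨ (i + 2 ≤ pm 0 w ∧
        ∃ k', k = k' + 1 ∧ (mach KA KS KR hA hS hR).SAcc (.gs q0) (mkl (i + 1) 0 w) k' G) := by
  obtain ⟨pend, any', j1, j2, j3⟩ := drun_adv (hA := hA) (hS := hS) (hR := hR) i w l 0 false h1 h2
    (by omega)
  have e : decide (0 = i + 1) = false := by simp
  rw [e] at j1 j3
  simp only [Bool.false_eq_true, false_or] at j2
  constructor
  · intro h
    rcases sacc_inv h with ⟨p', l', hk, h, hf⟩ | ⟨p', p'', l', k', G1, G', hk, hG, h, hf, h'⟩
    · obtain ⟨i1, i2, i3⟩ := sw_det (mach KA KS KR hA hS hR) D3 D3_det h trivial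
      left
      refine ⟨hk, i3, ?_⟩
      rw [i1, j1] at hf
      simp only [fin] at hf
      rw [← j2]
      intro h'
      rw [if_pos h'] at hf
      exact absurd hf (by simp)
    · obtain ⟨i1, i2, i3⟩ := sw_det (mach KA KS KR hA hS hR) D3 D3_det h trivial
      right
      rw [i1, j1] at hf
      simp only [fin] at hf
      split_ifs at hf with hany
      · injection hf with hf
        refine ⟨j2.mp hany, k', hk, ?_⟩
        rw [hG, i3, zero_add, ← j3, ← i2, hf]
        exact h'
  · have hsw := sw_drun (mach KA KS KR hA hS hR) D3 D3_det l (.adv false false) trivial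
    rw [j1, j3] at hsw
    rintro (⟨rfl, rfl, h⟩ | ⟨h, k', rfl, h'⟩)
    · refine Sweeper.SAcc.last hsw ?_
      simp only [fin]
      rw [if_neg]
      rw [j2]; exact h
    · have hf : (mach KA KS KR hA hS hR).fin (PS.adv pend any') = Verdict.cont (PS.gs q0) := by
        simp only [fin]; rw [if_pos (j2.mpr h)]
      have := Sweeper.SAcc.more hsw hf h'
      rw [zero_add] at this
      exact this

end Pool.Agent.helper20.OT
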