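import Mathlib
import Pool.Agent.helper20.OT.Phase1

set_option autoImplicit false

/-!
# Guess sweeps
-/

namespace Pool.Agent.helper20.OT

open Pool.Agent.helper24.OT

variable {KA KS KR : ℕ} {hA : 2 ≤ KA} {hS : 2 ≤ KS} {hR : 2 ≤ KR}

/-- a guess sweep with the guesses `βs` at the letters `#` -/
def grun : GS → List Cell → List Bool → GS × List Cell
  | q, [], _ => (q, [])
  | q, x :: l, βs =>
    ((grun (gst q x (βs.headD false)).1 l (if is3 x.a then βs.tail else βs)).1,
      (gst q x (βs.headD false)).2 ::
        (grun (gst q x (βs.headD false)).1 l (if is3 x.a then βs.tail else βs)).2)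

/-- the number of `#` -/
def n3 : List (Fin 5) → ℕ
  | [] => 0
  | a :: w => (if is3 a then 1 else 0) + n3 w

theorem gst_indep {q : GS} {x : Cell} (h : is3 x.a = false) (b b' : Bool) :
    gst q x b = gst q x b' := by
  have h3 : ¬ x.a = 3 := by simpa [is3] using h
  unfold gst
  simp only [h3, if_false]

theorem ncost_gs (q : GS) (x : Cell) :
    (mach KA KS KR hA hS hR).ncost (.gs q) x ≤ if is3 x.a then 1 else 0 := by
  unfold Sweeper.ncost
  by_cases h : is3 x.a = true
  · rw [if_pos h]
    split_ifs <;> omega
  · have h' : is3 x.a = false := by simpa using h
    rw [if_neg h, if_pos]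
    change (PS.gs (gst q x false).1, (gst q x false).2) = (PS.gs (gst q x true).1, (gst q x true).2)
    rw [gst_indep h' false true]

theorem sw_grun (l : List Cell) : ∀ (q : GS) (βs : List Bool), ∃ G, G ≤ n3 (lt l) ∧
    (mach KA KS KR hA hS hR).Sw (.gs q) l G (.gs (grun q l βs).1) (grun q l βs).2 := by
  induction l with
  | nil => intro q βs; exact ⟨0, le_rfl, Sweeper.Sw.nil _⟩
  | cons x l ih =>
    intro q βs
    obtain ⟨G, h1, h2⟩ := ih (gst q x (βs.headD false)).1 (if is3 x.a then βs.tail else βs)
    have h3 := Sweeper.Sw.cons (W := mach KA KS KR hA hS hR) (p := .gs q) (c := x)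
      (βs.headD false) h2
    refine ⟨_, ?_, h3⟩
    have := ncost_gs (hA := hA) (hS := hS) (hR := hR) q x
    simp only [lt, List.map_cons, n3] at h1 ⊢
    omega

theorem sw_nil_inv {W : Sweeper (Fin 5)} {p p' : W.P} {l' : List W.C} {G : ℕ}
    (h : W.Sw p [] G p' l') : p' = p ∧ l' = [] ∧ G = 0 := by
  cases h
  exact ⟨rfl, rfl, rfl⟩

theorem sw_cons_inv {W : Sweeper (Fin 5)} {p p' : W.P} {c : W.C} {l l' : List W.C} {G : ℕ}
    (h : W.Sw p (c :: l) G p' l') : ∃ (b : Bool) (n : ℕ) (l1 : List W.C),
      W.Sw (W.st p c b).1 l n p' l1 ∧ G = W.ncost p c + n ∧ l' = (W.st p c b).2 :: l1 := by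
  cases h with
  | cons b h => exact ⟨b, _, _, h, rfl, rfl⟩

theorem sw_gs_inv (l : List Cell) : ∀ (q : GS) (G : ℕ) (p' : PS KA KS KR) (l' : List Cell),
    (mach KA KS KR hA hS hR).Sw (.gs q) l G p' l' → ∃ βs : List Bool,
      βs.length = n3 (lt l) ∧ p' = .gs (grun q l βs).1 ∧ l' = (grun q l βs).2 ∧
      G ≤ n3 (lt l) := by
  induction l with
  | nil =>
    intro q G p' l' h
    obtain ⟨rfl, rfl, rfl⟩ := sw_nil_inv h
    exact ⟨[], rfl, rfl, rfl, le_rfl⟩
  | cons x l ih =>
    intro q G p' l' h
    obtain ⟨b, n, l1, h1, h2, h3⟩ := sw_cons_inv h
    have hc := ncost_gs (hA := hA) (hS := hS) (hR := hR) q x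
    obtain ⟨βs, i1, i2, i3, i4⟩ := ih _ _ _ _ h1
    by_cases h3' : is3 x.a = true
    · refine ⟨b :: βs, ?_, ?_, ?_, ?_⟩
      · simp only [lt, List.map_cons, n3, h3', if_true, List.length_cons] at i1 ⊢
        omega
      · simp only [grun, List.headD_cons, h3', if_true, List.tail_cons]
        exact i2
      · simp only [grun, List.headD_cons, h3', if_true, List.tail_cons]
        rw [h3, i3]
        rfl
      · simp only [lt, List.map_cons, n3] at i4 ⊢
        omega
    · have h3f : is3 x.a = false := by simpa using h3'
      have e : gst q x (βs.headD false) = gst q x b := gst_indep h3f _ _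
      refine ⟨βs, ?_, ?_, ?_, ?_⟩
      · simp only [lt, List.map_cons, n3, h3', if_false, zero_add, Bool.false_eq_true] at i1 ⊢
        exact i1
      · simp only [grun, h3', if_false, e, Bool.false_eq_true]
        exact i2
      · simp only [grun, h3', if_false, e, Bool.false_eq_true]
        rw [h3, i3]
        rfl
      · simp only [lt, List.map_cons, n3] at i4 ⊢
        omega

/-! ### The view of a list of cells -/

/-- (bits before the first non-bit, current blocks of the rest of the region, current blocks of
the following regions) -/
def V : List Cell → List (Bool × Bool) × List (List (Bool × Bool)) × List (List (List (Bool × Bool)))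
  | [] => ([], [], [])
  | x :: l =>
    if isb x.a then ((decide (x.a = 1), x.ac) :: (V l).1, (V l).2.1, (V l).2.2)
    else if is3 x.a then ([], [], (V l).2.1 :: (V l).2.2)
    else ([], if is2 x.a && x.mark then (V l).1 :: (V l).2.1 else (V l).2.1, (V l).2.2)

/-- elimination in a block -/
def el (β : Bool) : Bool → List (Bool × Bool) → List (Bool × Bool)
  | _, [] => []
  | par, (t, c) :: b => if c then (t, par == β) :: el β (!par) b else (t, false) :: el β par b

/-- number of active cells -/
def cntA : List (Bool × Bool) → ℕ
  | [] => 0
  | (_, c) :: b => c.toNat + cntA b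

/-- there is an active `1` -/
def hasA1 : List (Bool × Bool) → Prop
  | [] => False
  | (t, c) :: b => (t = true ∧ c = true) ∨ hasA1 b

theorem V_length (l : List Cell) : (V l).2.2.length = n3 (lt l) := by
  induction l with
  | nil => rfl
  | cons x l ih =>
    simp only [V, lt, List.map_cons, n3] at ih ⊢
    by_cases h1 : isb x.a = true
    · have h3 : is3 x.a = false := by
        revert h1; generalize x.a = a; revert a; decide
      simp only [h1, if_true, h3, Bool.false_eq_true, if_false, zero_add]
      exact ih
    · by_cases h3 : is3 x.a = true
      · simp only [h1, Bool.false_eq_true, if_false, h3, if_true, List.length_cons]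
        omega
      · simp only [h1, Bool.false_eq_true, if_false, h3, zero_add]
        exact ih

theorem V_grun (l : List Cell) : ∀ (q : GS) (βs : List Bool), βs.length = (V l).2.2.length →
    V (grun q l βs).2 = (if q.opn then el q.β q.par (V l).1 else (V l).1,
      (V l).2.1.map (el q.β false),
      List.zipWith (fun β r => r.map (el β false)) βs (V l).2.2) ∧
    ((grun q l βs).1.more = true ↔ q.more = true ∨
      (q.opn = true ∧ 2 ≤ cntA (V l).1 + q.one.toNat) ∨ (∃ b ∈ (V l).2.1, 2 ≤ cntA b) ∨
      ∃ r ∈ (V l).2.2, ∃ b ∈ r, 2 ≤ cntA b) ∧
    (((grun q l βs).1.bad || (grun q l βs).1.need) = true ↔ q.bad = true ∨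
      (q.need = true ∧ ¬ (q.opn = true ∧ hasA1 (V l).1)) ∨ (∃ b ∈ (V l).2.1, ¬ hasA1 b) ∨
      ∃ r ∈ (V l).2.2, ∃ b ∈ r, ¬ hasA1 b) := by
  induction l with
  | nil =>
    intro q βs h
    have hβ : βs = [] := by simpa [V] using h
    subst hβ
    refine ⟨?_, ?_, ?_⟩
    · simp only [grun, V, el, List.map_nil, List.zipWith_nil_left]
      split_ifs <;> rfl
    · simp only [grun, V, cntA, List.not_mem_nil, false_and, exists_false, or_false, zero_add]
      constructor
      · exact Or.inl
      · rintro (h | ⟨-, h⟩)
        · exact h
        · exfalso; have := Bool.toNat_le q.one; omega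
    · simp only [grun, V, hasA1, List.not_mem_nil, false_and, exists_false, or_false, and_false,
        not_false_eq_true, and_true, Bool.or_eq_true]
  | cons x l ih =>
    intro q βs h
    by_cases h1 : isb x.a = true
    · -- a bit
      have h3 : is3 x.a = false := by
        revert h1; generalize x.a = a; revert a; decide
      have hVx : V (x :: l) = ((decide (x.a = 1), x.ac) :: (V l).1, (V l).2.1, (V l).2.2) := by
        simp only [V, h1, if_true]
      rw [hVx] at h ⊢
      simp only at h
      by_cases hoc : (q.opn && x.ac) = true
      · have hop : q.opn = true := by simp at hoc; exact hoc.1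
        have hac : x.ac = true := by simp at hoc; exact hoc.2
        obtain ⟨i1, i2, i3⟩ := ih (gst q x (βs.headD false)).1 βs h
        have hg : gst q x (βs.headD false) = (⟨q.β, q.opn, q.need && !(decide (x.a = 1)), true,
            !q.par, q.more || q.one, q.bad⟩,
            ⟨x.a, x.fA, x.fS, x.fR, x.mark, (q.par == q.β)⟩) := by
          unfold gst
          simp only [h1, if_true, hoc]
        rw [hg] at i1 i2 i3
        simp only [hop, if_true] at i1 i2 i3
        refine ⟨?_, ?_, ?_⟩
        · simp only [grun, h3, Bool.false_eq_true, if_false, hg]
          simp only [V, h1, if_true, hop]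
          rw [i1]
          simp only [el, hac, if_true]
        · simp only [grun, h3, Bool.false_eq_true, if_false, hg]
          simp only [hop]
          rw [i2]
          simp only [cntA, hac, Bool.toNat_true, Bool.or_eq_true, true_and]
          cases hone : q.one
          · simp only [Bool.false_eq_true, or_false, Bool.toNat_false, add_zero]
            rw [add_comm 1 (cntA (V l).1)]
          · simp only [or_true, true_or, true_iff, Bool.toNat_true]
            right; left; omega
        · simp only [grun, h3, Bool.false_eq_true, if_false, hg]
          simp only [hop]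
          rw [i3]
          simp only [hasA1, hac, and_true, true_and, Bool.and_eq_true, Bool.not_eq_true',
            decide_eq_false_iff_not, not_or, decide_eq_true_eq]
          rw [and_assoc]
      · obtain ⟨i1, i2, i3⟩ := ih q βs h
        have hg : gst q x (βs.headD false) = (q, x) := by
          unfold gst
          simp only [h1, if_true, hoc, if_false, Bool.false_eq_true]
        have hg1 : grun q (x :: l) βs = ((grun q l βs).1, x :: (grun q l βs).2) := by
          simp only [grun, h3, Bool.false_eq_true, if_false, hg]
        rw [hg1]
        refine ⟨?_, ?_, ?_⟩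
        · simp only [V, h1, if_true]
          rw [i1]
          by_cases hop : q.opn = true
          · have hac : x.ac = false := by
              simp only [hop, Bool.true_and, Bool.not_eq_true] at hoc; exact hoc
            simp only [hop, if_true, el, hac, Bool.false_eq_true, if_false]
          · simp only [hop, if_false, Bool.false_eq_true]
        · simp only
          rw [i2]
          by_cases hop : q.opn = true
          · have hac : x.ac = false := by
              simp only [hop, Bool.true_and, Bool.not_eq_true] at hoc; exact hoc
            simp only [cntA, hac, Bool.toNat_false, zero_add]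
          · simp only [hop, false_and, Bool.false_eq_true]
        · simp only
          rw [i3]
          by_cases hop : q.opn = true
          · have hac : x.ac = false := by
              simp only [hop, Bool.true_and, Bool.not_eq_true] at hoc; exact hoc
            simp only [hasA1, hac, Bool.false_eq_true, and_false, false_or]
          · simp only [hop, false_and, Bool.false_eq_true]
    · by_cases h3 : is3 x.a = true
      · -- a `#`
        have hx2 : is2 x.a = false := by
          revert h3; generalize x.a = a; revert a; decide
        have hx2' : decide (x.a = 2) = false := hx2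
        have hx3 : x.a = 3 := by simpa [is3] using h3
        have hVx : V (x :: l) = ([], [], (V l).2.1 :: (V l).2.2) := by
          simp only [V, h1, if_false, h3, if_true, Bool.false_eq_true]
        rw [hVx] at h ⊢
        rcases βs with _ | ⟨b0, βs⟩
        · simp at h
        simp only [List.length_cons, Nat.add_right_cancel_iff] at h
        have hg : gst q x b0 = (⟨b0, false, false, false, false, q.more, q.bad || q.need⟩, x) := by
          unfold gst
          rw [if_neg h1, if_pos hx3, hx2']
          rfl
        obtain ⟨i1, i2, i3⟩ := ih ⟨b0, false, false, false, false, q.more, q.bad || q.need⟩ βs h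
        have hg1 : grun q (x :: l) (b0 :: βs) =
            ((grun ⟨b0, false, false, false, false, q.more, q.bad || q.need⟩ l βs).1,
              x :: (grun ⟨b0, false, false, false, false, q.more, q.bad || q.need⟩ l βs).2) := by
          simp only [grun, List.headD_cons, h3, if_true, List.tail_cons, hg]
        rw [hg1]
        refine ⟨?_, ?_, ?_⟩
        · simp only [V, h1, if_false, h3, if_true, Bool.false_eq_true]
          rw [i1]
          simp only [List.map_nil, List.zipWith_cons_cons, el]
          split_ifs <;> rfl
        · simp only
          rw [i2]
          simp only [Bool.false_eq_true, false_and, false_or, cntA, zero_add, List.not_mem_nil,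
            exists_false, List.mem_cons, exists_eq_or_imp]
          constructor
          · rintro (h | h | h)
            · exact Or.inl h
            · exact Or.inr (Or.inr (Or.inl h))
            · exact Or.inr (Or.inr (Or.inr h))
          · rintro (h | ⟨-, h⟩ | h | h)
            · exact Or.inl h
            · exfalso; have := Bool.toNat_le q.one; omega
            · exact Or.inr (Or.inl h)
            · exact Or.inr (Or.inr h)
        · simp only
          rw [i3]
          simp only [Bool.false_eq_true, false_and, false_or, hasA1, and_false, not_false_eq_true,
            and_true, List.not_mem_nil, exists_false, List.mem_cons, exists_eq_or_imp,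
            Bool.or_eq_true, or_assoc]
      · -- `;` or padding
        have h3f : is3 x.a = false := by simpa using h3
        have hx3 : ¬ x.a = 3 := by simpa [is3] using h3f
        have hVx : V (x :: l) = ([], if is2 x.a && x.mark then (V l).1 :: (V l).2.1
            else (V l).2.1, (V l).2.2) := by
          simp only [V, h1, if_false, h3, Bool.false_eq_true]
        rw [hVx] at h ⊢
        simp only at h
        have hg : gst q x (βs.headD false) = (⟨q.β, is2 x.a && x.mark, is2 x.a && x.mark, false,
            false, q.more, q.bad || q.need⟩, x) := by
          unfold gst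
          simp only [h1, if_false, hx3, Bool.false_eq_true]
          rfl
        obtain ⟨i1, i2, i3⟩ := ih ⟨q.β, is2 x.a && x.mark, is2 x.a && x.mark, false,
            false, q.more, q.bad || q.need⟩ βs h
        have hg1 : grun q (x :: l) βs =
            ((grun ⟨q.β, is2 x.a && x.mark, is2 x.a && x.mark, false,
            false, q.more, q.bad || q.need⟩ l βs).1,
              x :: (grun ⟨q.β, is2 x.a && x.mark, is2 x.a && x.mark, false,
            false, q.more, q.bad || q.need⟩ l βs).2) := by
          simp only [grun, h3, if_false, Bool.false_eq_true, hg]
        rw [hg1]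
        by_cases hm : (is2 x.a && x.mark) = true
        · rw [hm] at i1 i2 i3 ⊢
          simp only [if_true] at i1 i2 i3 ⊢
          refine ⟨?_, ?_, ?_⟩
          · simp only [V, h1, if_false, h3, Bool.false_eq_true, hm, if_true]
            rw [i1]
            simp only [List.map_cons, el]
            split_ifs <;> rfl
          · rw [i2]
            simp only [true_and, Bool.toNat_false, add_zero, cntA, zero_add, List.mem_cons,
              exists_eq_or_imp]
            constructor
            · rintro (h | h | h | h)
              · exact Or.inl h
              · exact Or.inr (Or.inr (Or.inl (Or.inl h)))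
              · exact Or.inr (Or.inr (Or.inl (Or.inr h)))
              · exact Or.inr (Or.inr (Or.inr h))
            · rintro (h | ⟨-, h⟩ | (h | h) | h)
              · exact Or.inl h
              · exfalso; have := Bool.toNat_le q.one; omega
              · exact Or.inr (Or.inl h)
              · exact Or.inr (Or.inr (Or.inl h))
              · exact Or.inr (Or.inr (Or.inr h))
          · rw [i3]
            simp only [true_and, hasA1, and_false, not_false_eq_true, and_true, List.mem_cons,
              exists_eq_or_imp, Bool.or_eq_true, or_assoc]
        · simp only [hm, Bool.false_eq_true, if_false] at i1 i2 i3 ⊢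
          refine ⟨?_, ?_, ?_⟩
          · simp only [V, h1, if_false, h3, Bool.false_eq_true, hm]
            rw [i1]
            simp only [el]
            split_ifs <;> rfl
          · rw [i2]
            simp only [false_and, false_or, cntA, zero_add]
            constructor
            · rintro (h | h | h)
              · exact Or.inl h
              · exact Or.inr (Or.inr (Or.inl h))
              · exact Or.inr (Or.inr (Or.inr h))
            · rintro (h | ⟨-, h⟩ | h | h)
              · exact Or.inl h
              · exfalso; have := Bool.toNat_le q.one; omega
              · exact Or.inr (Or.inl h)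
              · exact Or.inr (Or.inr h)
          · rw [i3]
            simp only [false_and, false_or, hasA1, and_false, not_false_eq_true, and_true,
              Bool.or_eq_true, or_assoc]

end Pool.Agent.helper20.OT
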