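import Mathlib
import Pool.Agent.helper20.OT.Phase2

set_option autoImplicit false

/-!
# Rounds
-/

namespace Pool.Agent.helper20.OT

open Pool.Agent.helper24.OT

variable {KA KS KR : ℕ} {hA : 2 ≤ KA} {hS : 2 ≤ KS} {hR : 2 ≤ KR}

theorem cntA_el (β : Bool) (b : List (Bool × Bool)) : ∀ par : Bool,
    cntA (el β par b) ≤ (cntA b + (par == β).toNat) / 2 := by
  induction b with
  | nil => intro par; simp [el, cntA]
  | cons x b ih =>
    obtain ⟨t, c⟩ := x
    intro par
    cases c
    · simpa [el, cntA] using ih par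
    · simp only [el, if_true, cntA, Bool.toNat_true]
      have := ih (!par)
      cases par <;> cases β <;> simp at this ⊢ <;> omega

theorem cntA_el' (β : Bool) (b : List (Bool × Bool)) :
    cntA (el β false b) ≤ (cntA b + 1) / 2 := by
  refine (cntA_el β b false).trans (Nat.div_le_div_right ?_)
  have := Bool.toNat_le (false == β)
  omega

/-- a property of all the current blocks -/
def AllB (P : List (Bool × Bool) → Prop) (l : List Cell) : Prop :=
  (∀ b ∈ (V l).2.1, P b) ∧ ∀ r ∈ (V l).2.2, ∀ b ∈ r, P b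

theorem all_zip {P Q : List (Bool × Bool) → Prop} (h : ∀ b β, P b → Q (el β false b)) :
    ∀ (rs : List (List (List (Bool × Bool)))) (βs : List Bool), (∀ r ∈ rs, ∀ b ∈ r, P b) →
      ∀ r ∈ List.zipWith (fun β r => r.map (el β false)) βs rs, ∀ b ∈ r, Q b := by
  intro rs
  induction rs with
  | nil => intro βs _ r hr; simp at hr
  | cons r0 rs ih =>
    intro βs hP r hr b hb
    rcases βs with _ | ⟨β, βs⟩
    · simp at hr
    · rw [List.zipWith_cons_cons, List.mem_cons] at hr
      rcases hr with rfl | hr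
      · obtain ⟨b', hb', rfl⟩ := List.mem_map.mp hb
        exact h _ _ (hP r0 (List.mem_cons_self) b' hb')
      · exact ih βs (fun r hr => hP r (List.mem_cons_of_mem _ hr)) r hr b hb

theorem allB_grun {P Q : List (Bool × Bool) → Prop} (h : ∀ b β, P b → Q (el β false b))
    {l : List Cell} (hl : AllB P l) (βs : List Bool) (hβ : βs.length = (V l).2.2.length) :
    AllB Q (grun q0 l βs).2 := by
  obtain ⟨h1, -, -⟩ := V_grun l q0 βs hβ
  unfold AllB
  rw [h1]
  constructor
  · intro b hb
    obtain ⟨b', hb', rfl⟩ := List.mem_map.mp hb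
    exact h _ _ (hl.1 b' hb')
  · exact all_zip h _ _ hl.2

theorem more_grun (l : List Cell) (βs : List Bool) (hβ : βs.length = (V l).2.2.length) :
    (grun q0 l βs).1.more = true ↔ ¬ AllB (fun b => cntA b ≤ 1) l := by
  obtain ⟨-, h2, -⟩ := V_grun l q0 βs hβ
  rw [h2]
  unfold AllB
  rw [not_and_or]
  push Not
  constructor
  · rintro (h | ⟨h, -⟩ | ⟨b, hb, h⟩ | ⟨r, hr, b, hb, h⟩)
    · exact absurd h (by simp [q0])
    · exact absurd h (by simp [q0])
    · exact Or.inl ⟨b, hb, h⟩
    · exact Or.inr ⟨r, hr, b, hb, h⟩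
  · rintro (⟨b, hb, h⟩ | ⟨r, hr, b, hb, h⟩)
    · exact Or.inr (Or.inr (Or.inl ⟨b, hb, h⟩))
    · exact Or.inr (Or.inr (Or.inr ⟨r, hr, b, hb, h⟩))

theorem bad_grun (l : List Cell) (βs : List Bool) (hβ : βs.length = (V l).2.2.length) :
    ((grun q0 l βs).1.bad || (grun q0 l βs).1.need) = true ↔ ¬ AllB hasA1 l := by
  obtain ⟨-, -, h2⟩ := V_grun l q0 βs hβ
  have e : (¬ AllB hasA1 l) ↔ (∃ b ∈ (V l).2.1, ¬ hasA1 b) ∨
      ∃ r ∈ (V l).2.2, ∃ b ∈ r, ¬ hasA1 b := by
    unfold AllB
    rw [not_and_or]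
    simp only [not_forall, exists_prop]
  rw [h2, e]
  constructor
  · rintro (h | ⟨h, -⟩ | ⟨b, hb, h⟩ | ⟨r, hr, b, hb, h⟩)
    · exact absurd h (by simp [q0])
    · exact absurd h (by simp [q0])
    · exact Or.inl ⟨b, hb, h⟩
    · exact Or.inr ⟨r, hr, b, hb, h⟩
  · rintro (⟨b, hb, h⟩ | ⟨r, hr, b, hb, h⟩)
    · exact Or.inr (Or.inr (Or.inl ⟨b, hb, h⟩))
    · exact Or.inr (Or.inr (Or.inr ⟨r, hr, b, hb, h⟩))

theorem gst_skel (q : GS) (x : Cell) (b : Bool) :
    (gst q x b).2.a = x.a ∧ (gst q x b).2.mark = x.mark := by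
  unfold gst
  split_ifs <;> exact ⟨rfl, rfl⟩

theorem grun_skel (l : List Cell) : ∀ (q : GS) (βs : List Bool),
    lt (grun q l βs).2 = lt l ∧ (grun q l βs).2.map Cell.mark = l.map Cell.mark := by
  induction l with
  | nil => intro q βs; exact ⟨rfl, rfl⟩
  | cons x l ih =>
    intro q βs
    obtain ⟨i1, i2⟩ := ih (gst q x (βs.headD false)).1 (if is3 x.a then βs.tail else βs)
    obtain ⟨j1, j2⟩ := gst_skel q x (βs.headD false)
    simp only [grun, lt, List.map_cons] at i1 ⊢
    rw [i1, i2, j1, j2]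
    exact ⟨rfl, rfl⟩

theorem fin_gs (q : GS) : fin KA KS KR (.gs q) = if q.more then .cont (.gs q0)
    else if q.bad || q.need then .rej else .cont (.adv false false) := rfl

/-- what a guess phase consists of -/
theorem gs_inv {l : List Cell} {k G : ℕ} (h : (mach KA KS KR hA hS hR).SAcc (.gs q0) l k G) :
    ∃ (βs : List Bool) (k' G1 G' : ℕ), βs.length = (V l).2.2.length ∧ k = k' + 1 ∧ G = G1 + G' ∧
      G1 ≤ n3 (lt l) ∧
      ((¬ AllB (fun b => cntA b ≤ 1) l ∧
        (mach KA KS KR hA hS hR).SAcc (.gs q0) (grun q0 l βs).2 k' G') ∨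
      (AllB (fun b => cntA b ≤ 1) l ∧ AllB hasA1 l ∧
        (mach KA KS KR hA hS hR).SAcc (.adv false false) (grun q0 l βs).2 k' G')) := by
  rcases sacc_inv h with ⟨p', l', hk, h, hf⟩ | ⟨p', p'', l', k', G1, G', hk, hG, h, hf, h'⟩
  · exfalso
    obtain ⟨βs, h1, rfl, h3, h4⟩ := sw_gs_inv l _ _ _ _ h
    change fin KA KS KR (.gs (grun q0 l βs).1) = _ at hf
    rw [fin_gs] at hf
    split_ifs at hf
  · obtain ⟨βs, h1, rfl, rfl, h4⟩ := sw_gs_inv l _ _ _ _ h
    have hβ : βs.length = (V l).2.2.length := by rw [h1, V_length]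
    refine ⟨βs, k', G1, G', hβ, hk, hG, h4, ?_⟩
    have hm := more_grun l βs hβ
    have hb := bad_grun l βs hβ
    change fin KA KS KR (.gs (grun q0 l βs).1) = _ at hf
    rw [fin_gs] at hf
    split_ifs at hf with c1 c2
    · injection hf with hf
      subst hf
      exact Or.inl ⟨hm.mp c1, h'⟩
    · injection hf with hf
      subst hf
      refine Or.inr ⟨?_, ?_, h'⟩
      · by_contra hc
        exact c1 (hm.mpr hc)
      · by_contra hc
        exact c2 (hb.mpr hc)

theorem clog_half {N : ℕ} (h : 2 ≤ N) : Nat.clog 2 ((N + 1) / 2) + 1 = Nat.clog 2 N := by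
  rw [Nat.clog_of_two_le (by norm_num) h]
  rfl

/-- a round has few guess sweeps -/
theorem round_of_sacc : ∀ (k : ℕ) (l : List Cell) (G N : ℕ), AllB (fun b => cntA b ≤ N) l →
    (mach KA KS KR hA hS hR).SAcc (.gs q0) l k G → ∃ (k1 k2 G1 G2 : ℕ) (l' : List Cell),
      k = k1 + k2 ∧ G = G1 + G2 ∧ k1 ≤ Nat.clog 2 N + 1 ∧ G1 ≤ k1 * n3 (lt l) ∧ 1 ≤ k1 ∧
      lt l' = lt l ∧ l'.map Cell.mark = l.map Cell.mark ∧
      (mach KA KS KR hA hS hR).SAcc (.adv false false) l' k2 G2 := by
  intro k
  induction k using Nat.strong_induction_on with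
  | _ k ih =>
  intro l G N hN h
  obtain ⟨βs, k', G1, G', hβ, hk, hG, hG1, hc⟩ := gs_inv h
  obtain ⟨s1, s2⟩ := grun_skel l q0 βs
  rcases hc with ⟨hm, h'⟩ | ⟨-, -, h'⟩
  · have hN2 : 2 ≤ N := by
      by_contra hlt
      apply hm
      exact ⟨fun b hb => (hN.1 b hb).trans (by omega),
        fun r hr b hb => (hN.2 r hr b hb).trans (by omega)⟩
    have hN' : AllB (fun b => cntA b ≤ (N + 1) / 2) (grun q0 l βs).2 := by
      refine allB_grun (P := fun b => cntA b ≤ N) ?_ hN βs hβ
      intro b β hb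
      exact (cntA_el' β b).trans (Nat.div_le_div_right (by omega))
    obtain ⟨k1, k2, G1', G2, l', i1, i2, i3, i4, i5, i6, i7, i8⟩ := ih k' (by omega) _ G' _ hN' h'
    have hcl := clog_half hN2
    refine ⟨k1 + 1, k2, G1 + G1', G2, l', by omega, by omega, by omega, ?_, by omega,
      i6.trans s1, i7.trans s2, i8⟩
    rw [s1] at i4
    rw [Nat.succ_mul]
    omega
  · refine ⟨1, k', G1, G', (grun q0 l βs).2, by omega, hG, by omega, by omega, le_rfl, s1, s2, h'⟩

/-! ### Matched blocks -/

/-- a common active position of the two blocks -/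
def Cc : List Bool → List Bool → List Bool → Prop
  | x :: xs, y :: ys, a :: A => (x = true ∧ y = true ∧ a = true) ∨ Cc xs ys A
  | _, _, _ => False

/-- elimination of activity flags -/
def eb (β : Bool) : Bool → List Bool → List Bool
  | _, [] => []
  | par, c :: A => if c then (par == β) :: eb β (!par) A else false :: eb β par A

theorem eb_length (β : Bool) (A : List Bool) : ∀ par, (eb β par A).length = A.length := by
  induction A with
  | nil => intro par; rfl
  | cons c A ih => intro par; simp only [eb]; split_ifs <;> simp [ih]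

theorem el_zip (β : Bool) (A : List Bool) : ∀ (xs : List Bool) (par : Bool),
    el β par (List.zip xs A) = List.zip xs (eb β par A) := by
  induction A with
  | nil => intro xs par; simp [eb, el]
  | cons c A ih =>
    intro xs par
    rcases xs with _ | ⟨x, xs⟩
    · simp [el]
    · simp only [List.zip_cons_cons, el, eb]
      split_ifs
      · rw [List.zip_cons_cons, ih]
      · rw [List.zip_cons_cons, ih]

theorem Cc_of_eb (β : Bool) : ∀ (A xs ys : List Bool) (par : Bool), Cc xs ys (eb β par A) →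
    Cc xs ys A := by
  intro A
  induction A with
  | nil => intro xs ys par h; exact h
  | cons c A ih =>
    intro xs ys par h
    rcases xs with _ | ⟨x, xs⟩
    · simp [Cc] at h
    rcases ys with _ | ⟨y, ys⟩
    · simp [Cc] at h
    cases c
    · simp only [eb, Bool.false_eq_true, if_false, Cc, and_false, false_or] at h ⊢
      exact ih _ _ _ h
    · simp only [eb, if_true, Cc] at h ⊢
      rcases h with ⟨h1, h2, -⟩ | h
      · exact Or.inl ⟨h1, h2, trivial⟩
      · exact Or.inr (ih _ _ _ h)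

theorem exists_eb : ∀ (A xs ys : List Bool) (par : Bool), Cc xs ys A →
    ∃ β, Cc xs ys (eb β par A) := by
  intro A
  induction A with
  | nil => intro xs ys par h; exact ⟨false, h⟩
  | cons c A ih =>
    intro xs ys par h
    rcases xs with _ | ⟨x, xs⟩
    · simp [Cc] at h
    rcases ys with _ | ⟨y, ys⟩
    · simp [Cc] at h
    cases c
    · simp only [Cc, Bool.false_eq_true, and_false, false_or] at h
      obtain ⟨β, hβ⟩ := ih xs ys par h
      refine ⟨β, ?_⟩
      simp only [eb, Bool.false_eq_true, if_false, Cc, and_false, false_or]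
      exact hβ
    · simp only [Cc, and_true] at h
      rcases h with ⟨h1, h2⟩ | h
      · refine ⟨par, ?_⟩
        simp only [eb, if_true, Cc, beq_self_eq_true, and_true]
        exact Or.inl ⟨h1, h2⟩
      · obtain ⟨β, hβ⟩ := ih xs ys (!par) h
        refine ⟨β, ?_⟩
        simp only [eb, if_true, Cc]
        exact Or.inr hβ

theorem hasA1_of_Cc : ∀ (A xs ys : List Bool), Cc xs ys A →
    hasA1 (List.zip xs A) ∧ hasA1 (List.zip ys A) := by
  intro A
  induction A with
  | nil => intro xs ys h; rcases xs with _ | ⟨x, xs⟩ <;> rcases ys with _ | ⟨y, ys⟩ <;> simp [Cc] at h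
  | cons c A ih =>
    intro xs ys h
    rcases xs with _ | ⟨x, xs⟩
    · simp [Cc] at h
    rcases ys with _ | ⟨y, ys⟩
    · simp [Cc] at h
    simp only [Cc, List.zip_cons_cons, hasA1] at h ⊢
    rcases h with ⟨h1, h2, h3⟩ | h
    · exact ⟨Or.inl ⟨h1, h3⟩, Or.inl ⟨h2, h3⟩⟩
    · exact ⟨Or.inr (ih _ _ h).1, Or.inr (ih _ _ h).2⟩

theorem cntA_pos_of_hasA1 : ∀ b : List (Bool × Bool), hasA1 b → 1 ≤ cntA b := by
  intro b
  induction b with
  | nil => intro h; exact h.elim
  | cons x b ih =>
    obtain ⟨t, c⟩ := x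
    rintro (⟨-, h⟩ | h)
    · simp only [cntA, h, Bool.toNat_true]
      omega
    · simp only [cntA]
      have := ih h
      omega

theorem cntA_zip (A : List Bool) : ∀ xs ys : List Bool, xs.length = A.length →
    ys.length = A.length → cntA (List.zip xs A) = cntA (List.zip ys A) := by
  induction A with
  | nil => intro xs ys _ _; simp
  | cons c A ih =>
    intro xs ys hx hy
    rcases xs with _ | ⟨x, xs⟩
    · simp at hx
    rcases ys with _ | ⟨y, ys⟩
    · simp at hy
    simp only [List.zip_cons_cons, cntA]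
    rw [ih xs ys (by simpa using hx) (by simpa using hy)]

theorem Cc_of_hasA1 : ∀ (A xs ys : List Bool), xs.length = A.length → ys.length = A.length →
    cntA (List.zip xs A) ≤ 1 → hasA1 (List.zip xs A) → hasA1 (List.zip ys A) → Cc xs ys A := by
  intro A
  induction A with
  | nil => intro xs ys _ _ _ h; simp [hasA1] at h
  | cons c A ih =>
    intro xs ys hx hy hc h1 h2
    rcases xs with _ | ⟨x, xs⟩
    · simp at hx
    rcases ys with _ | ⟨y, ys⟩
    · simp at hy
    have hx' : xs.length = A.length := by simpa using hx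
    have hy' : ys.length = A.length := by simpa using hy
    simp only [List.zip_cons_cons, hasA1, cntA] at hc h1 h2
    simp only [Cc]
    cases c
    · simp only [Bool.false_eq_true, and_false, false_or, Bool.toNat_false, zero_add] at hc h1 h2 ⊢
      exact ih xs ys hx' hy' hc h1 h2
    · simp only [and_true, Bool.toNat_true] at hc h1 h2 ⊢
      have h0 : cntA (List.zip xs A) = 0 := by omega
      have h0' : cntA (List.zip ys A) = 0 := by rw [cntA_zip A ys xs hy' hx']; exact h0
      left
      constructor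
      · rcases h1 with h1 | h1
        · exact h1
        · have := cntA_pos_of_hasA1 _ h1; omega
      · rcases h2 with h2 | h2
        · exact h2
        · have := cntA_pos_of_hasA1 _ h2; omega

/-- a region: the two blocks and the activity flags -/
abbrev Rg := List Bool × List Bool × List Bool

/-- the view of a region -/
def vw (t : Rg) : List (List (Bool × Bool)) := [List.zip t.1 t.2.2, List.zip t.2.1 t.2.2]

/-- `l` consists of matched regions `R` -/
def Mt (R : List Rg) (l : List Cell) : Prop :=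
  (V l).2.1 = [] ∧ (V l).2.2 = R.map vw ∧
    ∀ t ∈ R, t.1.length = t.2.2.length ∧ t.2.1.length = t.2.2.length

/-- elimination in a region -/
def er (β : Bool) (t : Rg) : Rg := (t.1, t.2.1, eb β false t.2.2)

theorem vw_er (β : Bool) (t : Rg) : (vw t).map (el β false) = vw (er β t) := by
  simp only [vw, er, List.map_cons, List.map_nil, el_zip]

theorem zip_vw : ∀ (R : List Rg) (βs : List Bool),
    List.zipWith (fun β r => r.map (el β false)) βs (R.map vw) = (List.zipWith er βs R).map vw := by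
  intro R
  induction R with
  | nil => intro βs; simp
  | cons t R ih =>
    intro βs
    rcases βs with _ | ⟨β, βs⟩
    · simp
    · simp only [List.map_cons, List.zipWith_cons_cons, vw_er, ih]

theorem mt_grun {R : List Rg} {l : List Cell} (h : Mt R l) (βs : List Bool)
    (hβ : βs.length = (V l).2.2.length) : Mt (List.zipWith er βs R) (grun q0 l βs).2 := by
  obtain ⟨h1, -, -⟩ := V_grun l q0 βs hβ
  obtain ⟨a1, a2, a3⟩ := h
  refine ⟨?_, ?_, ?_⟩
  · rw [h1, a1]; rfl
  · rw [h1]
    simp only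
    rw [a2, zip_vw]
  · clear h1 a1 a2 hβ
    induction R generalizing βs with
    | nil => intro t ht; simp at ht
    | cons t0 R ih =>
      rcases βs with _ | ⟨β, βs⟩
      · intro t ht; simp at ht
      · intro t ht
        rw [List.zipWith_cons_cons, List.mem_cons] at ht
        rcases ht with rfl | ht
        · have := a3 t0 List.mem_cons_self
          simp only [er, eb_length]
          exact this
        · exact ih βs (fun t ht => a3 t (List.mem_cons_of_mem _ ht)) t ht

theorem Cc_zip {R : List Rg} : ∀ (βs : List Bool), βs.length = R.length →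
    (∀ t ∈ List.zipWith er βs R, Cc t.1 t.2.1 t.2.2) → ∀ t ∈ R, Cc t.1 t.2.1 t.2.2 := by
  induction R with
  | nil => intro βs _ _ t ht; simp at ht
  | cons t0 R ih =>
    intro βs hβ h t ht
    rcases βs with _ | ⟨β, βs⟩
    · simp at hβ
    · rw [List.zipWith_cons_cons] at h
      rcases List.mem_cons.mp ht with rfl | ht
      · exact Cc_of_eb β _ _ _ _ (h _ List.mem_cons_self)
      · exact ih βs (by simpa using hβ) (fun t ht => h t (List.mem_cons_of_mem _ ht)) t ht

theorem exists_guess : ∀ (R : List Rg), (∀ t ∈ R, Cc t.1 t.2.1 t.2.2) →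
    ∃ βs : List Bool, βs.length = R.length ∧
      ∀ t ∈ List.zipWith er βs R, Cc t.1 t.2.1 t.2.2 := by
  intro R
  induction R with
  | nil => intro _; exact ⟨[], rfl, by simp⟩
  | cons t0 R ih =>
    intro h
    obtain ⟨βs, h1, h2⟩ := ih fun t ht => h t (List.mem_cons_of_mem _ ht)
    obtain ⟨β, hβ⟩ := exists_eb _ _ _ false (h t0 List.mem_cons_self)
    refine ⟨β :: βs, by simp [h1], ?_⟩
    intro t ht
    rw [List.zipWith_cons_cons, List.mem_cons] at ht
    rcases ht with rfl | ht
    · exact hβ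
    · exact h2 t ht

/-- soundness of a round on matched regions -/
theorem Cc_of_sacc : ∀ (k : ℕ) (l : List Cell) (G : ℕ) (R : List Rg), Mt R l →
    (mach KA KS KR hA hS hR).SAcc (.gs q0) l k G →
    (∀ t ∈ R, Cc t.1 t.2.1 t.2.2) ∧ ∃ (k2 G2 : ℕ) (l' : List Cell), k2 < k ∧
      lt l' = lt l ∧ l'.map Cell.mark = l.map Cell.mark ∧
      (mach KA KS KR hA hS hR).SAcc (.adv false false) l' k2 G2 := by
  intro k
  induction k using Nat.strong_induction_on with
  | _ k ih =>
  intro l G R hR' h
  obtain ⟨βs, k', G1, G', hβ, hk, hG, hG1, hc⟩ := gs_inv h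
  obtain ⟨s1, s2⟩ := grun_skel l q0 βs
  rcases hc with ⟨-, h'⟩ | ⟨hc1, hc2, h'⟩
  · obtain ⟨i1, k2, G2, l', i2, i3, i4, i5⟩ := ih k' (by omega) _ G' _ (mt_grun hR' βs hβ) h'
    refine ⟨Cc_zip βs ?_ i1, k2, G2, l', by omega, i3.trans s1, i4.trans s2, i5⟩
    rw [hβ, hR'.2.1, List.length_map]
  · refine ⟨?_, k', G', _, by omega, s1, s2, h'⟩
    intro t ht
    obtain ⟨l1, l2⟩ := hR'.2.2 t ht
    have hmem : vw t ∈ (V l).2.2 := by rw [hR'.2.1]; exact List.mem_map_of_mem ht
    exact Cc_of_hasA1 _ _ _ l1 l2 (hc1.2 _ hmem _ (by simp [vw]))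
      (hc2.2 _ hmem _ (by simp [vw])) (hc2.2 _ hmem _ (by simp [vw]))

/-- completeness of a round on matched regions -/
theorem sacc_of_Cc : ∀ (N : ℕ) (l : List Cell) (R : List Rg), Mt R l →
    AllB (fun b => cntA b ≤ N) l → (∀ t ∈ R, Cc t.1 t.2.1 t.2.2) →
    (∀ l' : List Cell, lt l' = lt l → l'.map Cell.mark = l.map Cell.mark →
      ∃ k G, (mach KA KS KR hA hS hR).SAcc (.adv false false) l' k G) →
    ∃ k G, (mach KA KS KR hA hS hR).SAcc (.gs q0) l k G := by
  intro N
  induction N using Nat.strong_induction_on with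
  | _ N ih =>
  intro l R hR' hN hC hadv
  obtain ⟨βs, h1, h2⟩ := exists_guess R hC
  have hβ : βs.length = (V l).2.2.length := by rw [h1, hR'.2.1, List.length_map]
  obtain ⟨G, -, hsw⟩ := sw_grun (hA := hA) (hS := hS) (hR := hR) l q0 βs
  obtain ⟨s1, s2⟩ := grun_skel l q0 βs
  have hm := more_grun l βs hβ
  have hb := bad_grun l βs hβ
  by_cases hc : AllB (fun b => cntA b ≤ 1) l
  · obtain ⟨k', G', h'⟩ := hadv (grun q0 l βs).2 s1 s2
    have c1 : (grun q0 l βs).1.more = false := by
      rw [← Bool.not_eq_true, hm]; exact fun h => h hc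
    have c2 : ((grun q0 l βs).1.bad || (grun q0 l βs).1.need) = false := by
      rw [← Bool.not_eq_true, hb, not_not]
      refine ⟨?_, ?_⟩
      · rw [hR'.1]; intro b hb; simp at hb
      · rw [hR'.2.1]
        intro r hr b hb
        obtain ⟨t, ht, rfl⟩ := List.mem_map.mp hr
        have := hasA1_of_Cc _ _ _ (hC t ht)
        simp only [vw, List.mem_cons, List.not_mem_nil, or_false] at hb
        rcases hb with rfl | rfl
        · exact this.1
        · exact this.2
    refine ⟨k' + 1, G + G', Sweeper.SAcc.more hsw ?_ h'⟩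
    change fin KA KS KR (.gs (grun q0 l βs).1) = _
    rw [fin_gs, c1, c2]
    rfl
  · have hN2 : 2 ≤ N := by
      by_contra hlt
      apply hc
      exact ⟨fun b hb => (hN.1 b hb).trans (by omega),
        fun r hr b hb => (hN.2 r hr b hb).trans (by omega)⟩
    have hN' : AllB (fun b => cntA b ≤ (N + 1) / 2) (grun q0 l βs).2 := by
      refine allB_grun (P := fun b => cntA b ≤ N) ?_ hN βs hβ
      intro b β hb
      exact (cntA_el' β b).trans (Nat.div_le_div_right (by omega))
    obtain ⟨k', G', h'⟩ := ih ((N + 1) / 2) (by omega) (grun q0 l βs).2 _ (mt_grun hR' βs hβ) hN' h2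
      (fun l' e1 e2 => hadv l' (e1.trans s1) (e2.trans s2))
    refine ⟨k' + 1, G + G', Sweeper.SAcc.more hsw ?_ h'⟩
    change fin KA KS KR (.gs (grun q0 l βs).1) = _
    rw [fin_gs, hm.mpr hc]
    rfl

end Pool.Agent.helper20.OT
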