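import Mathlib
import Pool.Agent.helper20.OT.Phase3

set_option autoImplicit false

/-!
# Module D
-/

namespace Pool.Agent.helper20.OT

open Pool.Agent.helper24.OT

variable {KA KS KR : ℕ} {hA : 2 ≤ KA} {hS : 2 ≤ KS} {hR : 2 ≤ KR}

/-! ### The initial measures -/

/-- the initial list of cells -/
def l0 (w : List (Fin 5)) : List Cell := w.map fun a => ⟨a, true, true, true, false, true⟩

/-- letters with flag `true` -/
def wt (w : List (Fin 5)) : List (Fin 5 × Bool) := w.map fun a => (a, true)

theorem lt_l0 (w : List (Fin 5)) : lt (l0 w) = w := by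
  induction w with
  | nil => rfl
  | cons a w ih => simp only [lt, l0, List.map_cons] at ih ⊢; rw [ih]

theorem lA_l0 (w : List (Fin 5)) : lA (l0 w) = wt w := by
  simp [lA, l0, wt]

theorem lS_l0 (w : List (Fin 5)) : lS (l0 w) = wt w := by
  simp [lS, l0, wt]

theorem lR_l0 (w : List (Fin 5)) : lR (l0 w) = wt w := by
  simp [lR, l0, wt]

theorem mu_A (w : List (Fin 5)) : ∀ n, mu (fun _ => false) (fun _ => true) n (wt w) =
    n + w.length := by
  induction w with
  | nil => intro n; rfl
  | cons a w ih =>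
    intro n
    simp only [wt, List.map_cons, mu, Bool.false_eq_true, if_false, Bool.and_self, if_true,
      List.length_cons] at ih ⊢
    rw [ih]; ring

theorem mu_S (w : List (Fin 5)) : ∀ n, mu (fun _ => false) is3 n (wt w) = n + n3 w := by
  induction w with
  | nil => intro n; rfl
  | cons a w ih =>
    intro n
    simp only [wt, List.map_cons, mu, Bool.false_eq_true, if_false, Bool.and_true, n3] at ih ⊢
    split_ifs <;> rw [ih] <;> ring

theorem mA_l0 (w : List (Fin 5)) : mA (l0 w) = w.length := by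
  rw [mA, lA_l0, mu_A, zero_add]

theorem mS_l0 (w : List (Fin 5)) : mS (l0 w) = n3 w := by
  rw [mS, lS_l0, mu_S, zero_add]

theorem le_mu (rs it : Fin 5 → Bool) (l : List (Fin 5 × Bool)) : ∀ n, n ≤ mu rs it n l := by
  induction l with
  | nil => intro n; exact le_rfl
  | cons x l ih =>
    intro n
    obtain ⟨a, f⟩ := x
    simp only [mu]
    split_ifs
    · exact le_max_left _ _
    · exact (Nat.le_succ n).trans (ih _)
    · exact ih _

theorem pm_le_mu (w : List (Fin 5)) : ∀ k n, k ≤ n → pm k w ≤ mu is3 is2 n (wt w) := by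
  induction w with
  | nil => intro k n h; exact h
  | cons a w ih =>
    intro k n h
    simp only [wt, List.map_cons, mu, pm, Bool.and_true] at ih ⊢
    by_cases h2 : is2 a = true
    · have h3 : is3 a = false := by revert h2; revert a; decide
      simp only [h2, if_true, h3, Bool.false_eq_true, if_false]
      exact ih _ _ (by omega)
    · by_cases h3 : is3 a = true
      · have hp : isp a = true := by revert h3; revert a; decide
        simp only [h2, if_false, hp, if_true, h3, Bool.false_eq_true]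
        exact max_le_max h (ih 0 0 le_rfl)
      · simp only [h2, h3, if_false, Bool.false_eq_true]
        split_ifs
        · exact max_le (h.trans (le_mu _ _ _ _)) (ih 0 n (Nat.zero_le _))
        · exact ih _ _ h

theorem pm_le_mR (w : List (Fin 5)) : pm 0 w ≤ mR (l0 w) := by
  rw [mR, lR_l0]
  exact pm_le_mu w 0 0 le_rfl

theorem cntA_le (l : List Cell) : cntA (V l).1 ≤ l.length ∧
    AllB (fun b => cntA b ≤ l.length) l := by
  induction l with
  | nil =>
    refine ⟨le_rfl, ?_, ?_⟩
    · intro b hb; simp [V] at hb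
    · intro r hr; simp [V] at hr
  | cons x l ih =>
    obtain ⟨i1, i2, i3⟩ := ih
    unfold AllB
    simp only [V]
    by_cases h1 : isb x.a = true
    · simp only [h1, if_true, List.length_cons, cntA]
      have := Bool.toNat_le x.ac
      exact ⟨by omega, fun b hb => (i2 b hb).trans (by omega),
        fun r hr b hb => (i3 r hr b hb).trans (by omega)⟩
    · by_cases h3 : is3 x.a = true
      · simp only [h1, if_false, h3, if_true, List.length_cons, cntA, Bool.false_eq_true]
        refine ⟨by omega, by intro b hb; simp at hb, ?_⟩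
        intro r hr b hb
        rcases List.mem_cons.mp hr with rfl | hr
        · exact (i2 b hb).trans (by omega)
        · exact (i3 r hr b hb).trans (by omega)
      · simp only [h1, if_false, h3, List.length_cons, cntA, Bool.false_eq_true]
        refine ⟨by omega, ?_, fun r hr b hb => (i3 r hr b hb).trans (by omega)⟩
        intro b hb
        split_ifs at hb
        · rcases List.mem_cons.mp hb with rfl | hb
          · exact i1.trans (by omega)
          · exact (i2 b hb).trans (by omega)
        · exact (i2 b hb).trans (by omega)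

theorem length_mkl (i : ℕ) (w : List (Fin 5)) : ∀ k, (mkl i k w).length = w.length := by
  induction w with
  | nil => intro k; rfl
  | cons a w ih => intro k; simp only [mkl, List.length_cons, ih]

theorem rounds : ∀ (k i : ℕ) (w : List (Fin 5)) (G : ℕ),
    (mach KA KS KR hA hS hR).SAcc (.gs q0) (mkl i 0 w) k G →
    k ≤ max (pm 0 w - i) 1 * (Nat.clog 2 w.length + 2) ∧
      G ≤ max (pm 0 w - i) 1 * (Nat.clog 2 w.length + 1) * n3 w := by
  intro k
  induction k using Nat.strong_induction_on with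
  | _ k ih =>
  intro i w G h
  have hB : AllB (fun b => cntA b ≤ w.length) (mkl i 0 w) := by
    have := (cntA_le (mkl i 0 w)).2
    rw [length_mkl] at this
    exact this
  obtain ⟨k1, k2, G1, G2, l', i1, i2, i3, i4, i5, i6, i7, i8⟩ := round_of_sacc k _ G _ hB h
  rw [lt_mkl] at i4 i6
  rw [sacc_adv i w l' i6 i7] at i8
  have hG1 : G1 ≤ (Nat.clog 2 w.length + 1) * n3 w := i4.trans (Nat.mul_le_mul_right _ i3)
  rcases i8 with ⟨j1, j2, -⟩ | ⟨j1, k', j2, j3⟩
  · have h1 : 1 ≤ max (pm 0 w - i) 1 := le_max_right _ _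
    constructor
    · calc k ≤ 1 * (Nat.clog 2 w.length + 2) := by omega
        _ ≤ _ := Nat.mul_le_mul_right _ h1
    · rw [mul_assoc]
      calc G ≤ 1 * ((Nat.clog 2 w.length + 1) * n3 w) := by omega
        _ ≤ _ := Nat.mul_le_mul_right _ h1
  · obtain ⟨m1, m2⟩ := ih k' (by omega) (i + 1) w G2 j3
    have e : max (pm 0 w - i) 1 = max (pm 0 w - (i + 1)) 1 + 1 := by omega
    rw [e]
    constructor
    · rw [Nat.succ_mul]; omega
    · rw [mul_assoc, Nat.succ_mul]
      rw [mul_assoc] at m2
      omega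

theorem part_one {w : List (Fin 5)} {T G : ℕ}
    (h : (mach KA KS KR hA hS hR).toNTM.AcceptsIn w T G) :
    ∃ T' G' e S R : ℕ, (mach KA KS KR hA hS hR).toNTM.AcceptsIn w T' G' ∧
      S ≤ KS ^ e ∧ R ≤ KR ^ e ∧ KA ^ (e - 1) ≤ w.length + 1 ∧
      T' ≤ (2 * w.length + 2) * (e + (R + 2) * (Nat.log 2 (w.length + 2) + 3) + 3) ∧
      G' ≤ S * (R + 2) * (Nat.log 2 (w.length + 2) + 3) := by
  obtain ⟨k, hk⟩ := Sweeper.sacc_of_acceptsIn _ h
  obtain ⟨e, k', l', a1, a2, a3, a4, a5, a6⟩ := phase1_of_sacc k (l0 w) G hk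
  rw [lt_l0] at a4
  rw [sacc_ini, a4] at a6
  obtain ⟨k'', a7, a8⟩ := a6
  obtain ⟨b1, b2⟩ := rounds k'' 0 w G a8
  obtain ⟨T', hT', hacc⟩ := Sweeper.acceptsIn_of_sacc _ hk
  rw [mS_l0] at a1
  rw [mA_l0] at a3
  have hpm := pm_le_mR w
  set R := mR (l0 w) with hRdef
  set S := n3 w with hSdef
  set L := Nat.log 2 (w.length + 2) with hL
  have hclog : Nat.clog 2 w.length ≤ L + 1 := by
    have h1 : Nat.clog 2 w.length ≤ Nat.log 2 w.length + 1 :=
      Nat.clog_le_of_le_pow (Nat.lt_pow_succ_log_self (by norm_num) _).le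
    have h2 : Nat.log 2 w.length ≤ L := Nat.log_mono_right (by omega)
    omega
  have hmax : max (pm 0 w - 0) 1 ≤ R + 1 := by omega
  refine ⟨T', G, e, S, R, hacc, a1, a2, ?_, ?_, ?_⟩
  · rcases a3 with rfl | a3
    · simp
    · omega
  · refine hT'.trans (Nat.mul_le_mul_left _ ?_)
    have : k'' ≤ (R + 1) * (L + 3) := b1.trans (Nat.mul_le_mul hmax (by omega))
    have h2 : (R + 2) * (L + 3) = (R + 1) * (L + 3) + (L + 3) := by ring
    rw [h2]
    omega
  · calc G ≤ max (pm 0 w - 0) 1 * (Nat.clog 2 w.length + 1) * S := b2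
      _ ≤ (R + 2) * (L + 3) * S := by
          refine Nat.mul_le_mul_right _ (Nat.mul_le_mul (by omega) (by omega))
      _ = S * (R + 2) * (L + 3) := by ring

/-! ### Words made of regions -/

/-- the letter of a bit -/
def bl (t : Bool) : Fin 5 := if t then 1 else 0

/-- a part -/
def pl (xs : List (List Bool)) : List (Fin 5) := (xs.map fun b => 2 :: b.map bl).flatten

/-- a region -/
def rl (N : ℕ) (p : List (List Bool) × List (List Bool)) : List (Fin 5) :=
  3 :: (pl p.1 ++ (List.replicate N 4 ++ pl p.2))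

/-- a word -/
def wl (N : ℕ) (RL : List (List (List Bool) × List (List Bool))) : List (Fin 5) :=
  (RL.map (rl N)).flatten

/-- the list of regions of `z` -/
def zl {s r m : ℕ} (z : Fin s → (Fin r → Fin m → Bool) × (Fin r → Fin m → Bool)) :
    List (List (List Bool) × List (List Bool)) :=
  List.ofFn fun k => (List.ofFn fun i => List.ofFn ((z k).1 i),
    List.ofFn fun i => List.ofFn ((z k).2 i))

theorem part_eq {r m : ℕ} (x : Fin r → Fin m → Bool) :
    part x = pl (List.ofFn fun i => List.ofFn (x i)) := by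
  unfold part pl
  rw [List.map_ofFn]
  congr 2
  funext i
  simp only [subw, Function.comp, List.map_ofFn]
  rfl

theorem word_eq {s r m : ℕ} (z : Fin s → (Fin r → Fin m → Bool) × (Fin r → Fin m → Bool)) :
    word z = wl (r * (m + 1)) (zl z) := by
  unfold word wl zl
  rw [List.map_ofFn]
  congr 2
  funext k
  simp only [region, Function.comp, rl, part_eq, List.append_assoc]

theorem n3_append (u v : List (Fin 5)) : n3 (u ++ v) = n3 u + n3 v := by
  induction u with
  | nil => simp [n3]
  | cons a u ih => simp only [List.cons_append, n3, ih]; ring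

theorem n3_bits (b : List Bool) : n3 (b.map bl) = 0 := by
  induction b with
  | nil => rfl
  | cons t b ih => simp only [List.map_cons, n3, ih]; cases t <;> rfl

theorem n3_pl (xs : List (List Bool)) : n3 (pl xs) = 0 := by
  induction xs with
  | nil => rfl
  | cons b xs ih =>
    have : pl (b :: xs) = 2 :: (b.map bl ++ pl xs) := by simp [pl]
    rw [this]
    simp only [n3, n3_append, n3_bits, ih]
    rfl

theorem n3_rep (N : ℕ) : n3 (List.replicate N (4 : Fin 5)) = 0 := by
  induction N with
  | zero => rfl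
  | succ N ih => rw [List.replicate_succ]; simp only [n3, ih]; rfl

theorem n3_wl (N : ℕ) (RL : List (List (List Bool) × List (List Bool))) :
    n3 (wl N RL) = RL.length := by
  induction RL with
  | nil => rfl
  | cons p RL ih =>
    have : wl N (p :: RL) = rl N p ++ wl N RL := by simp [wl]
    rw [this, n3_append, ih]
    simp only [rl, n3, n3_append, n3_pl, n3_rep, List.length_cons]
    simp [is3]
    ring

theorem mu_bits (b : List Bool) (w : List (Fin 5)) : ∀ n,
    mu is3 is2 n (wt (b.map bl ++ w)) = mu is3 is2 n (wt w) := by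
  induction b with
  | nil => intro n; rfl
  | cons t b ih =>
    intro n
    have key : mu is3 is2 n (wt ((t :: b).map bl ++ w)) = mu is3 is2 n (wt (b.map bl ++ w)) := by
      cases t <;> simp [wt, mu, bl, is3, is2]
    rw [key, ih]

theorem mu_pl (xs : List (List Bool)) (w : List (Fin 5)) : ∀ n,
    mu is3 is2 n (wt (pl xs ++ w)) = mu is3 is2 (n + xs.length) (wt w) := by
  induction xs with
  | nil => intro n; rfl
  | cons b xs ih =>
    intro n
    have : pl (b :: xs) ++ w = 2 :: (b.map bl ++ (pl xs ++ w)) := by simp [pl]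
    rw [this]
    have e : mu is3 is2 n (wt (2 :: (b.map bl ++ (pl xs ++ w)))) =
        mu is3 is2 (n + 1) (wt (b.map bl ++ (pl xs ++ w))) := by
      simp [wt, mu, is3, is2]
    rw [e, mu_bits, ih, List.length_cons]
    congr 1; ring

theorem mu_rep (N : ℕ) (w : List (Fin 5)) : ∀ n,
    mu is3 is2 n (wt (List.replicate N 4 ++ w)) = mu is3 is2 n (wt w) := by
  induction N with
  | zero => intro n; rfl
  | succ N ih =>
    intro n
    rw [List.replicate_succ]
    have e : mu is3 is2 n (wt (4 :: List.replicate N 4 ++ w)) =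
        mu is3 is2 n (wt (List.replicate N 4 ++ w)) := by
      simp [wt, mu, is3, is2]
    rw [e, ih]

theorem mu_wl (N r : ℕ) (RL : List (List (List Bool) × List (List Bool)))
    (h : ∀ p ∈ RL, p.1.length = r ∧ p.2.length = r) : ∀ n,
    mu is3 is2 n (wt (wl N RL)) ≤ max n (2 * r) := by
  induction RL with
  | nil => intro n; exact le_max_left _ _
  | cons p RL ih =>
    intro n
    have e1 : wl N (p :: RL) = 3 :: (pl p.1 ++ (List.replicate N 4 ++ (pl p.2 ++ wl N RL))) := by
      simp [wl, rl]
    have e2 : mu is3 is2 n (wt (3 :: (pl p.1 ++ (List.replicate N 4 ++ (pl p.2 ++ wl N RL))))) =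
        max n (mu is3 is2 0 (wt (pl p.1 ++ (List.replicate N 4 ++ (pl p.2 ++ wl N RL))))) := by
      simp [wt, mu, is3]
    obtain ⟨h1, h2⟩ := h p List.mem_cons_self
    rw [e1, e2, mu_pl, mu_rep, mu_pl, h1, h2]
    have := ih (fun p hp => h p (List.mem_cons_of_mem _ hp)) (0 + r + r)
    omega

theorem pm_bits (b : List Bool) (w : List (Fin 5)) : ∀ n,
    pm n (b.map bl ++ w) = pm n w := by
  induction b with
  | nil => intro n; rfl
  | cons t b ih =>
    intro n
    have key : pm n ((t :: b).map bl ++ w) = pm n (b.map bl ++ w) := by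
      cases t <;> simp [pm, bl, isp, is2]
    rw [key, ih]

theorem pm_pl (xs : List (List Bool)) (w : List (Fin 5)) : ∀ n,
    pm n (pl xs ++ w) = pm (n + xs.length) w := by
  induction xs with
  | nil => intro n; rfl
  | cons b xs ih =>
    intro n
    have : pl (b :: xs) ++ w = 2 :: (b.map bl ++ (pl xs ++ w)) := by simp [pl]
    rw [this]
    have e : pm n (2 :: (b.map bl ++ (pl xs ++ w))) = pm (n + 1) (b.map bl ++ (pl xs ++ w)) := by
      simp [pm, is2]
    rw [e, pm_bits, ih, List.length_cons]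
    congr 1; ring

theorem pm_rep (N : ℕ) (w : List (Fin 5)) : ∀ n,
    pm n (List.replicate (N + 1) 4 ++ w) = max n (pm 0 w) := by
  induction N with
  | zero => intro n; simp [pm, is2, isp]
  | succ N ih =>
    intro n
    rw [List.replicate_succ]
    have e : pm n (4 :: List.replicate (N + 1) 4 ++ w) =
        max n (pm 0 (List.replicate (N + 1) 4 ++ w)) := by
      simp [pm, is2, isp]
    rw [e, ih]
    simp

theorem pm_wl (N r : ℕ) (RL : List (List (List Bool) × List (List Bool)))
    (h : ∀ p ∈ RL, p.1.length = r ∧ p.2.length = r) : ∀ n,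
    pm n (wl (N + 1) RL) = max n (if RL = [] then 0 else r) := by
  induction RL with
  | nil => intro n; simp [wl, pm]
  | cons p RL ih =>
    intro n
    have e1 : wl (N + 1) (p :: RL) = 3 :: (pl p.1 ++ (List.replicate (N + 1) 4 ++
        (pl p.2 ++ wl (N + 1) RL))) := by
      simp [wl, rl]
    have e2 : pm n (3 :: (pl p.1 ++ (List.replicate (N + 1) 4 ++ (pl p.2 ++ wl (N + 1) RL)))) =
        max n (pm 0 (pl p.1 ++ (List.replicate (N + 1) 4 ++ (pl p.2 ++ wl (N + 1) RL)))) := by
      simp [pm, is2, isp]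
    obtain ⟨h1, h2⟩ := h p List.mem_cons_self
    rw [e1, e2, pm_pl, pm_rep, pm_pl, h1, h2, ih (fun p hp => h p (List.mem_cons_of_mem _ hp))]
    simp only [zero_add, reduceCtorEq, if_false]
    split_ifs <;> simp

/-! ### The view of a word -/

/-- a fully active block -/
def ba (b : List Bool) : List (Bool × Bool) := b.map fun t => (t, true)

theorem V_bits (i : ℕ) (b : List Bool) (w : List (Fin 5)) : ∀ k,
    V (mkl i k (b.map bl ++ w)) = (ba b ++ (V (mkl i k w)).1, (V (mkl i k w)).2.1,
      (V (mkl i k w)).2.2) := by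
  induction b with
  | nil => intro k; rfl
  | cons t b ih =>
    intro k
    have h1 : isb (bl t) = true := by cases t <;> rfl
    have h2 : nk (bl t) k = k := by cases t <;> rfl
    have h3 : decide (bl t = 1) = t := by cases t <;> rfl
    simp only [List.map_cons, List.cons_append, mkl, V, h1, if_true, h2, ih, h3, ba]

theorem V_pl (i : ℕ) (xs : List (List Bool)) (w : List (Fin 5)) : ∀ k,
    (V (mkl i (k + xs.length) w)).1 = [] →
    V (mkl i k (pl xs ++ w)) = ([], (if k ≤ i then (xs[i - k]?).toList.map ba else []) ++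
      (V (mkl i (k + xs.length) w)).2.1, (V (mkl i (k + xs.length) w)).2.2) := by
  induction xs with
  | nil =>
    intro k h
    simp only [List.length_nil, add_zero] at h ⊢
    have e : pl [] ++ w = w := rfl
    rw [e]
    refine Prod.ext h ?_
    split_ifs <;> simp
  | cons b xs ih =>
    intro k h
    have e : pl (b :: xs) ++ w = 2 :: (b.map bl ++ (pl xs ++ w)) := by simp [pl]
    have e2 : k + (b :: xs).length = k + 1 + xs.length := by simp; ring
    rw [e2] at h ⊢
    have ih' := ih (k + 1) h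
    rw [e]
    have e3 : mkl i k (2 :: (b.map bl ++ (pl xs ++ w))) =
        ⟨2, false, false, false, decide (k = i), true⟩ ::
          mkl i (k + 1) (b.map bl ++ (pl xs ++ w)) := by
      simp [mkl, is2, nk]
    rw [e3]
    have e4 : ∀ (l : List Cell) (c : Bool), V (⟨2, false, false, false, c, true⟩ :: l) =
        ([], if c then (V l).1 :: (V l).2.1 else (V l).2.1, (V l).2.2) := by
      intro l c
      simp [V, isb, is3, is2]
    rw [e4, V_bits, ih']
    rcases lt_trichotomy k i with hlt | heq | hgt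
    · have c1 : decide (k = i) = false := by simp; omega
      have c2 : k + 1 ≤ i := hlt
      have c3 : k ≤ i := by omega
      simp only [c1, c2, c3, if_true, Bool.false_eq_true, if_false]
      obtain ⟨j, hj⟩ : ∃ j, i - k = j + 1 := ⟨i - k - 1, by omega⟩
      have hj' : i - (k + 1) = j := by omega
      rw [hj, hj', List.getElem?_cons_succ]
    · subst heq
      simp
    · have c1 : decide (k = i) = false := by simp; omega
      have c2 : ¬ k + 1 ≤ i := by omega
      have c3 : ¬ k ≤ i := by omega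
      simp only [c1, c2, c3, if_false, Bool.false_eq_true, List.nil_append]

theorem V_rep (i N : ℕ) (w : List (Fin 5)) : ∀ k,
    V (mkl i k (List.replicate (N + 1) 4 ++ w)) = ([], (V (mkl i 0 w)).2.1, (V (mkl i 0 w)).2.2) := by
  induction N with
  | zero => intro k; simp [mkl, V, isb, is3, is2, nk, isp]
  | succ N ih =>
    intro k
    rw [List.replicate_succ]
    have e : V (mkl i k (4 :: List.replicate (N + 1) 4 ++ w)) =
        ([], (V (mkl i 0 (List.replicate (N + 1) 4 ++ w))).2.1,
          (V (mkl i 0 (List.replicate (N + 1) 4 ++ w))).2.2) := by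
      simp [mkl, V, isb, is3, is2, nk, isp]
    rw [e, ih]

theorem V_wl (i N : ℕ) (RL : List (List (List Bool) × List (List Bool))) : ∀ k,
    V (mkl i k (wl (N + 1) RL)) = ([], [], RL.map fun p =>
      (p.1[i]?).toList.map ba ++ (p.2[i]?).toList.map ba) := by
  induction RL with
  | nil => intro k; rfl
  | cons p RL ih =>
    intro k
    have e1 : wl (N + 1) (p :: RL) = 3 :: (pl p.1 ++ (List.replicate (N + 1) 4 ++
        (pl p.2 ++ wl (N + 1) RL))) := by
      simp [wl, rl]
    have e2 : V (mkl i k (3 :: (pl p.1 ++ (List.replicate (N + 1) 4 ++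
        (pl p.2 ++ wl (N + 1) RL))))) = ([], [],
        (V (mkl i 0 (pl p.1 ++ (List.replicate (N + 1) 4 ++ (pl p.2 ++ wl (N + 1) RL))))).2.1 ::
        (V (mkl i 0 (pl p.1 ++ (List.replicate (N + 1) 4 ++ (pl p.2 ++ wl (N + 1) RL))))).2.2) := by
      simp [mkl, V, isb, is3, nk, is2, isp]
    have h1 : (V (mkl i (0 + p.2.length) (wl (N + 1) RL))).1 = [] := by rw [ih]
    have v1 := V_pl i p.2 (wl (N + 1) RL) 0 h1
    rw [ih] at v1
    have h2 : (V (mkl i (0 + p.1.length) (List.replicate (N + 1) 4 ++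
        (pl p.2 ++ wl (N + 1) RL)))).1 = [] := by rw [V_rep]
    have v2 := V_pl i p.1 _ 0 h2
    rw [V_rep, v1] at v2
    rw [e1, e2, v2]
    simp

theorem ba_eq (b : List Bool) : ba b = List.zip b (List.replicate b.length true) := by
  induction b with
  | nil => rfl
  | cons t b ih =>
    simp only [ba, List.map_cons, List.length_cons, List.replicate_succ, List.zip_cons_cons] at ih ⊢
    rw [ih]

theorem Cc_ofFn {m : ℕ} (f g : Fin m → Bool) :
    Cc (List.ofFn f) (List.ofFn g) (List.replicate m true) ↔ ∃ j, f j = true ∧ g j = true := by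
  induction m with
  | zero => simp [Cc]
  | succ m ih =>
    rw [List.ofFn_succ, List.ofFn_succ, List.replicate_succ]
    simp only [Cc, and_true]
    rw [ih, Fin.exists_fin_succ]

/-- the matched regions at round `i` -/
def Rz {s r m : ℕ} (z : Fin s → (Fin r → Fin m → Bool) × (Fin r → Fin m → Bool)) (i : Fin r) :
    List Rg :=
  List.ofFn fun k => (List.ofFn ((z k).1 i), List.ofFn ((z k).2 i), List.replicate m true)

theorem mt_word {s r m : ℕ} (z : Fin s → (Fin r → Fin m → Bool) × (Fin r → Fin m → Bool))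
    (i : Fin r) : Mt (Rz z i) (mkl i 0 (word z)) := by
  have hN : ∃ N, r * (m + 1) = N + 1 := by
    have h2 : 0 < r * (m + 1) := Nat.mul_pos (by have := i.2; omega) (by omega)
    exact ⟨r * (m + 1) - 1, by omega⟩
  obtain ⟨N, hN⟩ := hN
  rw [word_eq, hN]
  refine ⟨?_, ?_, ?_⟩
  · rw [V_wl]
  · rw [V_wl]
    simp only [zl, Rz, List.map_ofFn]
    congr 1
    funext k
    simp only [Function.comp, vw, List.getElem?_ofFn, i.2, dif_pos, Option.toList_some,
      List.map_cons, List.map_nil, ba_eq, List.length_ofFn, Fin.eta]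
    rfl
  · intro t ht
    simp only [Rz, List.mem_ofFn] at ht
    obtain ⟨k, rfl⟩ := ht
    simp

theorem Cc_word {s r m : ℕ} (z : Fin s → (Fin r → Fin m → Bool) × (Fin r → Fin m → Bool))
    (i : Fin r) : (∀ t ∈ Rz z i, Cc t.1 t.2.1 t.2.2) ↔
      ∀ k, ∃ j, (z k).1 i j = true ∧ (z k).2 i j = true := by
  constructor
  · intro h k
    have := h (List.ofFn ((z k).1 i), List.ofFn ((z k).2 i), List.replicate m true)
      (by simp only [Rz, List.mem_ofFn]; exact ⟨k, rfl⟩)
    exact (Cc_ofFn _ _).mp this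
  · intro h t ht
    simp only [Rz, List.mem_ofFn] at ht
    obtain ⟨k, rfl⟩ := ht
    exact (Cc_ofFn _ _).mpr (h k)

theorem zl_length {s r m : ℕ} (z : Fin s → (Fin r → Fin m → Bool) × (Fin r → Fin m → Bool)) :
    (zl z).length = s ∧ ∀ p ∈ zl z, p.1.length = r ∧ p.2.length = r := by
  constructor
  · simp [zl]
  · intro p hp
    simp only [zl, List.mem_ofFn] at hp
    obtain ⟨k, rfl⟩ := hp
    simp

theorem pm_word {s r m : ℕ} (z : Fin s → (Fin r → Fin m → Bool) × (Fin r → Fin m → Bool))
    (hr : 1 ≤ r) (hs : 1 ≤ s) : pm 0 (word z) = r := by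
  have hN : ∃ N, r * (m + 1) = N + 1 := by
    have h2 : 0 < r * (m + 1) := Nat.mul_pos (by omega) (by omega)
    exact ⟨r * (m + 1) - 1, by omega⟩
  obtain ⟨N, hN⟩ := hN
  rw [word_eq, hN, pm_wl N r _ (zl_length z).2]
  have : zl z ≠ [] := by
    intro h
    have := (zl_length z).1
    rw [h] at this
    simp at this
    omega
  simp [this]

theorem yes_of_sacc {s r m : ℕ} (z : Fin s → (Fin r → Fin m → Bool) × (Fin r → Fin m → Bool))
    (hr : 1 ≤ r) (hs : 1 ≤ s) : ∀ (k i G : ℕ), i < r →
    (mach KA KS KR hA hS hR).SAcc (.gs q0) (mkl i 0 (word z)) k G →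
    ∀ i' : Fin r, i ≤ i' → ∀ κ, ∃ j, (z κ).1 i' j = true ∧ (z κ).2 i' j = true := by
  intro k
  induction k using Nat.strong_induction_on with
  | _ k ih =>
  intro i G hi h i' hii' κ
  obtain ⟨h1, k2, G2, l', h2, h3, h4, h5⟩ := Cc_of_sacc k _ G _ (mt_word z ⟨i, hi⟩) h
  rcases Nat.eq_or_lt_of_le hii' with heq | hlt
  · have : i' = ⟨i, hi⟩ := Fin.ext heq.symm
    rw [this]
    exact (Cc_word z ⟨i, hi⟩).mp h1 κ
  · rw [lt_mkl] at h3
    rw [sacc_adv i (word z) l' h3 h4, pm_word z hr hs] at h5
    rcases h5 with ⟨-, -, h6⟩ | ⟨h6, k', h7, h8⟩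
    · have := i'.2; omega
    · exact ih k' (by omega) (i + 1) G2 (by omega) h8 i' (by omega) κ

theorem sacc_of_yes {s r m : ℕ} (z : Fin s → (Fin r → Fin m → Bool) × (Fin r → Fin m → Bool))
    (hr : 1 ≤ r) (hs : 1 ≤ s) (hY : Yes z) : ∀ (d i : ℕ), i + d + 1 = r →
    ∃ k G, (mach KA KS KR hA hS hR).SAcc (.gs q0) (mkl i 0 (word z)) k G := by
  intro d
  induction d with
  | zero =>
    intro i hi
    refine sacc_of_Cc _ _ _ (mt_word z ⟨i, by omega⟩) (cntA_le _).2
      ((Cc_word z ⟨i, by omega⟩).mpr fun κ => hY κ _) ?_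
    intro l' h1 h2
    rw [lt_mkl] at h1
    refine ⟨1, 0, ?_⟩
    rw [sacc_adv i (word z) l' h1 h2, pm_word z hr hs]
    exact Or.inl ⟨rfl, rfl, by omega⟩
  | succ d ih =>
    intro i hi
    obtain ⟨k, G, h⟩ := ih (i + 1) (by omega)
    refine sacc_of_Cc _ _ _ (mt_word z ⟨i, by omega⟩) (cntA_le _).2
      ((Cc_word z ⟨i, by omega⟩).mpr fun κ => hY κ _) ?_
    intro l' h1 h2
    rw [lt_mkl] at h1
    refine ⟨k + 1, G, ?_⟩
    rw [sacc_adv i (word z) l' h1 h2, pm_word z hr hs]
    exact Or.inr ⟨by omega, k, rfl, h⟩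

theorem part_two {s r m e : ℕ} (z : Fin s → (Fin r → Fin m → Bool) × (Fin r → Fin m → Bool))
    (hr : 1 ≤ r) (hs : 1 ≤ s) (h1 : s ≤ KS ^ e) (h2 : 2 * r ≤ KR ^ e)
    (h3 : 2 * KA ^ (e - 1) ≤ (word z).length) :
    (∃ T G, (mach KA KS KR hA hS hR).toNTM.AcceptsIn (word z) T G) ↔ Yes z := by
  constructor
  · rintro ⟨T, G, h⟩
    obtain ⟨k, hk⟩ := Sweeper.sacc_of_acceptsIn _ h
    obtain ⟨e, k', l', a1, a2, a3, a4, a5, a6⟩ := phase1_of_sacc k (l0 (word z)) G hk
    rw [lt_l0] at a4
    rw [sacc_ini, a4] at a6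
    obtain ⟨k'', a7, a8⟩ := a6
    intro κ i
    exact yes_of_sacc z hr hs k'' 0 G (by omega) a8 i (Nat.zero_le _) κ
  · intro hY
    obtain ⟨r', rfl⟩ : ∃ r', r = r' + 1 := ⟨r - 1, by omega⟩
    obtain ⟨k0, G0, h0⟩ := sacc_of_yes (hA := hA) (hS := hS) (hR := hR) z hr hs hY r' 0 (by omega)
    have hz := zl_length z
    obtain ⟨k, G, h⟩ := sacc_of_phase1 (hA := hA) (hS := hS) (hR := hR) e (l0 (word z))
      (by rw [mS_l0, word_eq, n3_wl, hz.1]; exact h1)
      (by
        rw [mR, lR_l0, word_eq]
        refine (mu_wl _ (r' + 1) _ hz.2 0).trans ?_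
        rw [Nat.zero_max]
        exact h2)
      (by intro _; rw [mA_l0]; exact h3)
      (by
        intro l' hl'
        rw [lt_l0] at hl'
        refine ⟨k0 + 1, G0, ?_⟩
        rw [sacc_ini, hl']
        exact ⟨k0, rfl, h0⟩)
    obtain ⟨T, -, hT⟩ := Sweeper.acceptsIn_of_sacc (mach KA KS KR hA hS hR) (w := word z) h
    exact ⟨T, G, hT⟩

/-- **Module D.** -/
theorem moduleD : ModuleD := by
  intro KA KS KR hA hS hR
  refine ⟨(mach KA KS KR hA hS hR).toNTM, fun w T G h => part_one h, ?_⟩
  intro s r m e z _ hr hs _ h1 h2 h3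
  exact part_two z hr hs h1 h2 h3

end Pool.Agent.helper20.OT
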